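import Pool.Agent.Work.MP_01d39a_al.B1.Hall

open scoped RealInnerProductSpace BigOperators Pointwise
open Filter

namespace Pool.Agent.Work.MP_01d39a_al.B1

namespace Setup

variable {G H : Type*} [Group G] [NormedAddCommGroup H] [InnerProductSpace ℝ H] (S : Setup G H)

include S in
theorem exists_sel : ∃ (h : Fin 3 → G) (σ : G → Fin 3),
    ∀ (y y' : G) (j : ℕ), y' * h (σ y') = y * h (σ y) * S.a ^ j → j = 0 ∧ y = y' := by
  classical
  obtain ⟨g1, g2, hg1, hg2, hall⟩ := S.hall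
  let h : Fin 3 → G := ![1, g1, g2]
  have hh : ∀ i, ∀ x ∈ S.D, (h i)⁻¹ * x * h i ∈ S.D := by
    intro i x hx
    fin_cases i
    · simpa [h] using hx
    · exact hg1 x hx
    · exact hg2 x hx
  let t : G ⧸ S.D → Finset H := fun q => Finset.univ.image fun i => S.c (q.out * h i)
  obtain ⟨f, hf, hft⟩ := (Finset.all_card_le_biUnion_card_iff_exists_injective t).1 (by
    intro s
    have h1 := hall (s.image Quotient.out) (by
      intro y hy y' hy' hD
      obtain ⟨q, -, rfl⟩ := Finset.mem_image.1 hy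
      obtain ⟨q', -, rfl⟩ := Finset.mem_image.1 hy'
      have : (q.out : G ⧸ S.D) = (q'.out : G) := QuotientGroup.eq.2 hD
      rw [QuotientGroup.out_eq', QuotientGroup.out_eq'] at this
      rw [this])
    rw [Finset.card_image_of_injective _ Quotient.out_injective] at h1
    refine h1.trans (Finset.card_le_card fun v hv => ?_)
    simp only [Finset.mem_union, Finset.mem_image, exists_exists_and_eq_and] at hv
    simp only [Finset.mem_biUnion, t, Finset.mem_image, Finset.mem_univ, true_and]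
    rcases hv with (⟨q, hq, rfl⟩ | ⟨q, hq, rfl⟩) | ⟨q, hq, rfl⟩
    · exact ⟨q, hq, 0, by simp [h]⟩
    · exact ⟨q, hq, 1, rfl⟩
    · exact ⟨q, hq, 2, rfl⟩)
  have hex : ∀ q, ∃ i, S.c (q.out * h i) = f q := fun q => by
    obtain ⟨i, -, hi⟩ := Finset.mem_image.1 (hft q)
    exact ⟨i, hi⟩
  choose τ hτ using hex
  have hc : ∀ y : G, S.c (y * h (τ y)) = f y := by
    intro y
    rw [← hτ]
    have h1 : ((y : G ⧸ S.D).out)⁻¹ * y ∈ S.D := by
      rw [← QuotientGroup.eq, QuotientGroup.out_eq']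
    have h2 := S.C_le_K (S.D_le_C (hh (τ y) _ h1))
    rw [← S.c_mul_K ((y : G ⧸ S.D).out * h (τ y)) h2]
    congr 1
    group
  refine ⟨h, fun y => τ y, fun y y' j hj => ?_⟩
  have h1 : f y' = f y := by
    rw [← hc, ← hc, hj, S.c_mul_K _ (S.K.pow_mem S.a_mem_K j)]
  have h2 : (y : G ⧸ S.D) = y' := (hf h1).symm
  have h3 : y⁻¹ * y' ∈ S.D := QuotientGroup.eq.1 h2
  simp only [← h2] at hj
  have h4 : S.a ^ j = (h (τ y))⁻¹ * (y⁻¹ * y') * h (τ y) := by
    rw [mul_assoc, mul_assoc, hj]; group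
  have h5 : j = 0 := S.pow_mem_D (h4 ▸ hh _ _ h3)
  subst h5
  rw [pow_zero, mul_one] at hj
  exact ⟨rfl, (mul_right_cancel hj).symm⟩

include S in
theorem paradox : ∃ (A : Fin 2 → Set G) (B : Fin 3 → Set G) (g : Fin 2 → G) (h : Fin 3 → G),
    (∀ i j, i ≠ j → Disjoint (A i) (A j)) ∧ (∀ i j, i ≠ j → Disjoint (B i) (B j)) ∧
    (∀ i j, Disjoint (A i) (B j)) ∧ (⋃ i, g i • A i) = Set.univ ∧ (⋃ j, h j • B j) = Set.univ := by
  obtain ⟨h, σ, hσ⟩ := S.exists_sel
  let P : Set G := {y | ∃ (w : G) (j : ℕ), y = w * h (σ w) * S.a ^ j}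
  refine ⟨![{x | x⁻¹ ∉ P}, {x | x⁻¹ * S.a⁻¹ ∈ P}],
    fun i => {x | ∃ y, σ y = i ∧ x⁻¹ = y * h i}, ![1, S.a], h, ?_, ?_, ?_, ?_, ?_⟩
  · have key : Disjoint {x : G | x⁻¹ ∉ P} {x | x⁻¹ * S.a⁻¹ ∈ P} := by
      rw [Set.disjoint_left]
      rintro x hx ⟨w, j, hw⟩
      exact hx ⟨w, j + 1, by rw [pow_succ, ← mul_assoc, ← hw]; group⟩
    intro i j hij
    fin_cases i <;> fin_cases j
    · exact absurd rfl hij
    · exact key
    · exact key.symm
    · exact absurd rfl hij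
  · intro i j hij
    rw [Set.disjoint_left]
    rintro x ⟨y, hy, hx⟩ ⟨y', hy', hx'⟩
    have := hσ y y' 0 (by rw [hy, hy', pow_zero, mul_one, ← hx, ← hx'])
    exact hij (by rw [← hy, ← hy', this.2])
  · intro i j
    rw [Set.disjoint_left]
    fin_cases i
    · rintro x hx ⟨y, hy, hxy⟩
      exact hx ⟨y, 0, by rw [hy, pow_zero, mul_one, hxy]⟩
    · rintro x ⟨w, k, hw⟩ ⟨y, hy, hxy⟩
      have := hσ w y (k + 1) (by rw [hy, ← hxy, pow_succ, ← mul_assoc, ← hw]; group)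
      omega
  · rw [Set.eq_univ_iff_forall]
    intro x
    by_cases hx : x⁻¹ ∈ P
    · refine Set.mem_iUnion.2 ⟨1, ?_⟩
      rw [Set.mem_smul_set_iff_inv_smul_mem]
      simpa using hx
    · refine Set.mem_iUnion.2 ⟨0, ?_⟩
      rw [Set.mem_smul_set_iff_inv_smul_mem]
      simpa using hx
  · rw [Set.eq_univ_iff_forall]
    intro x
    refine Set.mem_iUnion.2 ⟨σ x⁻¹, ?_⟩
    rw [Set.mem_smul_set_iff_inv_smul_mem]
    exact ⟨x⁻¹, rfl, by simp⟩

end Setup

end Pool.Agent.Work.MP_01d39a_al.B1
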