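import Pool.Agent.Work.MP_01d39a_al.B1.Ell
import Pool.Agent.Work.MP_01d39a_al.B1.Paradox

open scoped RealInnerProductSpace BigOperators Topology Pointwise
open Filter ContinuousLinearMap

namespace Pool.Agent.Work.MP_01d39a_al.B1

variable {G : Type*} [Group G] {ι : Type*} [Fintype ι]

/-- The group element represented by a word. -/
def wd (s : ι → G) : List (ι × Bool) → G
  | [] => 1
  | (i, true) :: w => s i * wd s w
  | (i, false) :: w => (s i)⁻¹ * wd s w

/-- Fox calculus. -/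
noncomputable def ev (s : ι → G) : List (ι × Bool) → (K ι G →L[ℝ] L G)
  | [] => 0
  | (i, true) :: w => PiLp.proj 2 (fun _ : ι => L G) i +
      (lam (s i)).toContinuousLinearEquiv.toContinuousLinearMap ∘L ev s w
  | (i, false) :: w => (lam (s i)⁻¹).toContinuousLinearEquiv.toContinuousLinearMap ∘L
      (ev s w - PiLp.proj 2 (fun _ : ι => L G) i)

theorem ev_true (s : ι → G) (i : ι) (w : List (ι × Bool)) (v : K ι G) :
    ev s ((i, true) :: w) v = v i + lam (s i) (ev s w v) := rfl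

theorem ev_false (s : ι → G) (i : ι) (w : List (ι × Bool)) (v : K ι G) :
    ev s ((i, false) :: w) v = lam (s i)⁻¹ (ev s w v - v i) := rfl

theorem ev_nil (s : ι → G) (v : K ι G) : ev s [] v = 0 := rfl

omit [Fintype ι] in
theorem wd_append (s : ι → G) (w w' : List (ι × Bool)) : wd s (w ++ w') = wd s w * wd s w' := by
  induction w with
  | nil => simp [wd]
  | cons q w ih => obtain ⟨i, _ | _⟩ := q <;> simp [wd, ih, mul_assoc]

theorem ev_append (s : ι → G) (w w' : List (ι × Bool)) (v : K ι G) :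
    ev s (w ++ w') v = ev s w v + lam (wd s w) (ev s w' v) := by
  induction w with
  | nil => simp [wd, ev_nil]
  | cons q w ih =>
    obtain ⟨i, _ | _⟩ := q
    · rw [List.cons_append, ev_false, ev_false, ih, wd, lam_mul, ← map_add]
      congr 1; abel
    · rw [List.cons_append, ev_true, ev_true, ih, wd, lam_mul, map_add, add_assoc]

theorem ev_rho (s : ι → G) (w : List (ι × Bool)) (g : G) (v : K ι G) :
    ev s w (rhoK g v) = rho g (ev s w v) := by
  induction w with
  | nil => simp [ev_nil]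
  | cons q w ih =>
    obtain ⟨i, _ | _⟩ := q
    · rw [ev_false, ev_false, ih, rhoK_apply, ← map_sub, lam_rho]
    · rw [ev_true, ev_true, ih, rhoK_apply, lam_rho, map_add]

theorem ev_cocycle (s : ι → G) (b : G → L G) (hb : ∀ g h, b (g * h) = b g + lam g (b h))
    (v : K ι G) (hv : ∀ i, v i = b (s i)) (w : List (ι × Bool)) : ev s w v = b (wd s w) := by
  induction w with
  | nil =>
    have := hb 1 1
    rw [mul_one, map_one] at this
    exact (left_eq_add.mp this).symm
  | cons q w ih =>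
    obtain ⟨i, _ | _⟩ := q
    · rw [ev_false, ih, hv, wd]
      have := hb (s i) ((s i)⁻¹ * wd s w)
      rw [mul_inv_cancel_left] at this
      rw [this, add_sub_cancel_left, ← lam_mul, inv_mul_cancel, map_one]; rfl
    · rw [ev_true, ih, hv, wd, hb]

omit [Fintype ι] in
theorem wd_surj (s : ι → G) (hs : Subgroup.closure (Set.range s) = ⊤) (g : G) :
    ∃ w, wd s w = g := by
  have hg : g ∈ Subgroup.closure (Set.range s) := hs ▸ Subgroup.mem_top g
  induction hg using Subgroup.closure_induction_left with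
  | one => exact ⟨[], rfl⟩
  | mul_left x hx y _ ih =>
    obtain ⟨i, rfl⟩ := hx
    obtain ⟨w, rfl⟩ := ih
    exact ⟨(i, true) :: w, rfl⟩
  | inv_mul_cancel x hx y _ ih =>
    obtain ⟨i, rfl⟩ := hx
    obtain ⟨w, rfl⟩ := ih
    exact ⟨(i, false) :: w, rfl⟩

/-- Values of cocycles on the generators. -/
noncomputable def Zc (s : ι → G) : Submodule ℝ (K ι G) :=
  ⨅ w : {w : List (ι × Bool) // wd s w = 1}, (ev s w.1).ker

theorem mem_Zc {s : ι → G} {v : K ι G} : v ∈ Zc s ↔ ∀ w, wd s w = 1 → ev s w v = 0 := by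
  simp [Zc, Submodule.mem_iInf]

theorem Zc_closed (s : ι → G) : IsClosed (Zc s : Set (K ι G)) := by
  rw [Zc, Submodule.coe_iInf]
  exact isClosed_iInter fun w => (ev s w.1).isClosed_ker

theorem ev_congr {s : ι → G} (hs : Subgroup.closure (Set.range s) = ⊤) {v : K ι G} (hv : v ∈ Zc s)
    {w w' : List (ι × Bool)} (h : wd s w = wd s w') : ev s w v = ev s w' v := by
  obtain ⟨u, hu⟩ := wd_surj s hs (wd s w)⁻¹
  have h1 := mem_Zc.1 hv (w ++ u) (by rw [wd_append, hu, mul_inv_cancel])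
  have h2 := mem_Zc.1 hv (w' ++ u) (by rw [wd_append, hu, ← h, mul_inv_cancel])
  rw [ev_append] at h1 h2
  rw [← h] at h2
  exact add_right_cancel (h1.trans h2.symm)

/-- The coboundary map. -/
noncomputable def dmap (s : ι → G) (i0 : ι) : K ι G →L[ℝ] K ι G :=
  (PiLp.continuousLinearEquiv 2 ℝ (fun _ : ι => L G)).symm.toContinuousLinearMap ∘L
    ContinuousLinearMap.pi fun i =>
      (lam (s i)).toContinuousLinearEquiv.toContinuousLinearMap ∘L
        PiLp.proj 2 (fun _ : ι => L G) i0 - PiLp.proj 2 (fun _ : ι => L G) i0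

theorem dmap_apply (s : ι → G) (i0 : ι) (v : K ι G) (i : ι) :
    dmap s i0 v i = lam (s i) (v i0) - v i0 := rfl

theorem ev_dmap (s : ι → G) (i0 : ι) (v : K ι G) (w : List (ι × Bool)) :
    ev s w (dmap s i0 v) = lam (wd s w) (v i0) - v i0 :=
  ev_cocycle s (fun g => lam g (v i0) - v i0) (fun g h => by
    simp only [map_sub, lam_mul]; abel) _ (dmap_apply s i0 v) w

/-- Vectors supported on one coordinate. -/
noncomputable def Ka (G : Type*) (i0 : ι) : Submodule ℝ (K ι G) :=
  ⨅ i : {i : ι // i ≠ i0}, (PiLp.proj (𝕜 := ℝ) 2 (fun _ : ι => L G) i.1).ker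

omit [Group G] in
theorem mem_Ka {i0 : ι} {v : K ι G} : v ∈ Ka G i0 ↔ ∀ i, i ≠ i0 → v i = 0 := by
  simp [Ka, Submodule.mem_iInf]

omit [Group G] in
theorem Ka_closed (i0 : ι) : IsClosed (Ka G i0 : Set (K ι G)) := by
  rw [Ka, Submodule.coe_iInf]
  exact isClosed_iInter fun i => ContinuousLinearMap.isClosed_ker _

theorem approx_or_vanish (s : ι → G) (hs : Subgroup.closure (Set.range s) = ⊤) (i0 : ι)
    (ha : ¬ IsOfFinOrder (s i0)) :
    (∃ c : G → L G, (∀ g h, c (g * h) = c g + lam g (c h)) ∧ c (s i0) = 0 ∧ ∃ g, c g ≠ 0) ∨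
    ∀ b : G → L G, (∀ g h, b (g * h) = b g + lam g (b h)) → ∀ ε : ℝ, 0 < ε → ∀ F : Finset G,
      ∃ ξ : L G, ∀ g ∈ F, ‖b g - (lam g ξ - ξ)‖ < ε := by
  classical
  choose w hw using wd_surj s hs
  by_cases h0 : ∃ v ∈ Zc s, v i0 = 0 ∧ v ≠ 0
  · left
    obtain ⟨v, hv, hv0, hne⟩ := h0
    have hgen : ∀ i, ev s (w (s i)) v = v i := by
      intro i
      rw [ev_congr hs hv (w' := [(i, true)]) (by rw [hw]; simp [wd]), ev_true, ev_nil]; simp
    refine ⟨fun g => ev s (w g) v, fun g h => ?_, (hgen i0).trans hv0, ?_⟩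
    · beta_reduce
      rw [ev_congr hs hv (w := w (g * h)) (w' := w g ++ w h) (by rw [wd_append, hw, hw, hw]),
        ev_append, hw]
    · by_contra hc
      push Not at hc
      apply hne
      ext i x
      rw [← hgen, hc]; rfl
  right
  push Not at h0
  have : CompleteSpace (Zc s) := (Zc_closed s).completeSpace_coe
  have : CompleteSpace (Ka G i0) := (Ka_closed i0).completeSpace_coe
  set B := (dmap s i0).range.topologicalClosure with hB
  have hZr : ∀ g, ∀ u ∈ Zc s, rhoK g u ∈ Zc s := fun g u hu =>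
    mem_Zc.2 fun w hw => by rw [ev_rho, mem_Zc.1 hu w hw, map_zero]
  have hKr : ∀ g, ∀ u ∈ Ka G i0, rhoK g u ∈ Ka G i0 := fun g u hu =>
    mem_Ka.2 fun i hi => by rw [rhoK_apply, mem_Ka.1 hu i hi, map_zero]
  have hdE : Eqv (dmap s i0) := fun g v => by
    ext i : 1
    rw [dmap_apply, rhoK_apply, rhoK_apply, dmap_apply, map_sub, lam_rho]
  have hBr : ∀ g, ∀ u ∈ B, rhoK g u ∈ B := by
    intro g u hu
    refine map_mem_closure (f := rhoK g) (rhoK g).continuous hu ?_
    rintro _ ⟨x, rfl⟩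
    exact ⟨rhoK g x, hdE g x⟩
  have hBZ : B ≤ Zc s := by
    refine Submodule.topologicalClosure_minimal _ ?_ (Zc_closed s)
    rintro _ ⟨x, rfl⟩
    exact mem_Zc.2 fun w hw => by
      change ev s w (dmap s i0 x) = 0
      rw [ev_dmap, hw, map_one]; exact sub_self _
  have hc : 0 < ‖dmap s i0‖ + 1 := by positivity
  have d1 := dim_le_eqv ((‖dmap s i0‖ + 1)⁻¹ • dmap s i0) (by
      rw [norm_smul, norm_inv, Real.norm_of_nonneg hc.le, inv_mul_le_iff₀ hc]; linarith)
    (hdE.smul _) (Ka G i0) B (by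
      intro u hu x hx
      rw [smul_apply, smul_eq_zero] at hx
      have h1 : dmap s i0 x = 0 := hx.resolve_left (by positivity)
      have h2 : lam (s i0) (x i0) = x i0 := by
        have := dmap_apply s i0 x i0
        rw [h1] at this
        exact sub_eq_zero.1 this.symm
      have h3 := lam_fixed ha h2
      rw [PiLp.inner_apply]
      refine Finset.sum_eq_zero fun i _ => ?_
      by_cases hi : i = i0
      · rw [hi, h3, inner_zero_right]
      · rw [mem_Ka.1 hu i hi, inner_zero_left])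
    (fun x => B.smul_mem _ (Submodule.le_topologicalClosure _ (LinearMap.mem_range_self _ x)))
  have d2 := dim_le_eqv ((Ka G i0).starProjection * (Zc s).starProjection) (by
      refine (norm_mul_le _ _).trans ?_
      exact mul_le_one₀ (Submodule.starProjection_norm_le _) (norm_nonneg _)
        (Submodule.starProjection_norm_le _))
    ((Eqv.proj _ hKr).mul (Eqv.proj _ hZr)) (Zc s) (Ka G i0) (by
      intro u hu x hx
      have h1 : (Zc s).starProjection x ∈ (Ka G i0)ᗮ :=
        (Submodule.starProjection_apply_eq_zero_iff _).1 hx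
      have h2 : (Zc s).starProjection x i0 = 0 := by
        ext y
        rw [← inner_dl]
        refine h1 _ (mem_Ka.2 fun i hi => ?_)
        simp only [dl, PiLp.single_eq_of_ne _ hi]
      have h3 := h0 _ ((Zc s).starProjection_apply_mem x) h2
      have h4 := (Zc s).starProjection_inner_eq_zero x u hu
      rw [h3, sub_zero, real_inner_comm] at h4
      exact h4)
    (fun x => (Ka G i0).starProjection_apply_mem _)
  have hZB := eq_of_dim_le (Zc s) B hZr hBr hBZ (d2.trans d1)
  intro b hb ε hε F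
  let v : K ι G := WithLp.toLp 2 fun i => b (s i)
  have hev : ∀ u, ev s u v = b (wd s u) := ev_cocycle s b hb v fun i => rfl
  have hvZ : v ∈ Zc s := mem_Zc.2 fun u hu => by
    rw [hev, hu]; exact (hev []).symm
  set C : ℝ := ∑ g ∈ F, ‖ev s (w g)‖ + 1 with hC
  have hC0 : 0 < C := by positivity
  obtain ⟨_, ⟨x, rfl⟩, hx⟩ := Metric.mem_closure_iff.1 (hZB hvZ) (ε / C) (by positivity)
  refine ⟨x i0, fun g hg => ?_⟩
  have h1 : b g - (lam g (x i0) - x i0) = ev s (w g) (v - dmap s i0 x) := by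
    rw [map_sub, hev, ev_dmap, hw]
  have h2 : ‖ev s (w g)‖ ≤ C := by
    have := Finset.single_le_sum (f := fun g => ‖ev s (w g)‖) (fun _ _ => norm_nonneg _) hg
    linarith
  rw [dist_eq_norm, lt_div_iff₀ hC0] at hx
  rw [h1]
  calc ‖ev s (w g) (v - dmap s i0 x)‖ ≤ C * ‖v - dmap s i0 x‖ :=
        (le_opNorm _ _).trans (mul_le_mul_of_nonneg_right h2 (norm_nonneg _))
    _ < ε := by rw [mul_comm]; exact hx

theorem paradox_of_cocycle {a : G} (ha : ¬ IsOfFinOrder a) (c : G → L G)
    (hc : ∀ g h, c (g * h) = c g + lam g (c h)) (hca : c a = 0) {g0 : G} (hg : c g0 ≠ 0) :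
    ∃ (A : Fin 2 → Set G) (B : Fin 3 → Set G) (g : Fin 2 → G) (h : Fin 3 → G),
    (∀ i j, i ≠ j → Disjoint (A i) (A j)) ∧ (∀ i j, i ≠ j → Disjoint (B i) (B j)) ∧
    (∀ i j, Disjoint (A i) (B j)) ∧ (⋃ i, g i • A i) = Set.univ ∧ (⋃ j, h j • B j) = Set.univ :=
  Setup.paradox
    { π := lam
      c := fun g => ‖c g0‖⁻¹ • c g
      a := a
      g0 := g0
      coc := fun g h => by rw [hc, smul_add, map_smul]
      ca := by rw [hca, smul_zero]
      ha := ha
      hξ := by rw [norm_smul, norm_inv, norm_norm, inv_mul_cancel₀ (norm_ne_zero_iff.2 hg)]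
      fs := lam_fs }

theorem real_main [Group.FG G] {a : G} (ha : ¬ IsOfFinOrder a) :
    (∃ (A : Fin 2 → Set G) (B : Fin 3 → Set G) (g : Fin 2 → G) (h : Fin 3 → G),
    (∀ i j, i ≠ j → Disjoint (A i) (A j)) ∧ (∀ i j, i ≠ j → Disjoint (B i) (B j)) ∧
    (∀ i j, Disjoint (A i) (B j)) ∧ (⋃ i, g i • A i) = Set.univ ∧ (⋃ j, h j • B j) = Set.univ) ∨
    ∀ b : G → L G, (∀ g h, b (g * h) = b g + lam g (b h)) → ∀ ε : ℝ, 0 < ε → ∀ F : Finset G,
      ∃ ξ : L G, ∀ g ∈ F, ‖b g - (lam g ξ - ξ)‖ < ε := by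
  classical
  obtain ⟨S, hS⟩ := Group.fg_def.1 ‹_›
  have hs : Subgroup.closure (Set.range fun i : (insert a S : Finset G) => (i : G)) = ⊤ := by
    rw [eq_top_iff, ← hS]
    refine Subgroup.closure_mono fun x hx => ⟨⟨x, Finset.mem_insert_of_mem hx⟩, rfl⟩
  rcases approx_or_vanish _ hs ⟨a, Finset.mem_insert_self _ _⟩ ha with ⟨c, hc, hca, g0, hg⟩ | h
  · exact Or.inl (paradox_of_cocycle ha c hc hca hg)
  · exact Or.inr h

end Pool.Agent.Work.MP_01d39a_al.B1
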