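import Mathlib

open scoped RealInnerProductSpace BigOperators Topology
open Filter ContinuousLinearMap

namespace Pool.Agent.Work.MP_01d39a_al.B1

variable {H : Type*} [NormedAddCommGroup H] [InnerProductSpace ℝ H] [CompleteSpace H]

theorem contr_ineq (T : H →L[ℝ] H) (hT : ‖T‖ ≤ 1) (z : H) :
    ‖adjoint T (T z)‖ ^ 2 + ‖z - adjoint T (T z)‖ ^ 2 ≤ ‖z‖ ^ 2 := by
  have h1 : ‖adjoint T (T z)‖ ≤ ‖T z‖ := by
    refine (le_opNorm _ _).trans ?_
    rw [LinearIsometryEquiv.norm_map]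
    exact mul_le_of_le_one_left (norm_nonneg _) hT
  have h2 : ⟪z, adjoint T (T z)⟫ = ‖T z‖ ^ 2 := by
    rw [adjoint_inner_right, real_inner_self_eq_norm_sq]
  rw [norm_sub_sq_real, h2]
  have := pow_le_pow_left₀ (norm_nonneg _) h1 2
  linarith

theorem pow_tendsto (T : H →L[ℝ] H) (hT : ‖T‖ ≤ 1) (u : H)
    (hu : u ∈ (LinearMap.range (adjoint T * T : H →L[ℝ] H).toLinearMap).topologicalClosure) :
    Tendsto (fun n : ℕ => ((1 - adjoint T * T) ^ n) u) atTop (𝓝 0) := by
  set A : H →L[ℝ] H := adjoint T * T with hA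
  set B : H →L[ℝ] H := 1 - A with hB
  have hBz : ∀ z, ‖A z‖ ^ 2 + ‖B z‖ ^ 2 ≤ ‖z‖ ^ 2 := fun z => contr_ineq T hT z
  have hB1 : ∀ z, ‖B z‖ ≤ ‖z‖ := fun z => by
    have := hBz z
    exact (abs_le_of_sq_le_sq' (by nlinarith [sq_nonneg ‖A z‖]) (norm_nonneg _)).2
  have hBn : ∀ n : ℕ, ∀ z, ‖(B ^ n) z‖ ≤ ‖z‖ := by
    intro n
    induction n with
    | zero => intro z; simp
    | succ n ih => intro z; rw [pow_succ']; exact (hB1 _).trans (ih z)
  have hcomm : ∀ n : ℕ, ∀ y, (B ^ n) (A y) = A ((B ^ n) y) := by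
    intro n y
    have : Commute (B ^ n) A := (((Commute.one_left A).sub_left (Commute.refl A))).pow_left n
    exact congrArg (fun X : H →L[ℝ] H => X y) this.eq
  have hrange : ∀ y, Tendsto (fun n : ℕ => (B ^ n) (A y)) atTop (𝓝 0) := by
    intro y
    have hs : Summable fun n : ℕ => ‖A ((B ^ n) y)‖ ^ 2 := by
      refine summable_of_sum_range_le (c := ‖y‖ ^ 2) (fun n => sq_nonneg _) fun n => ?_
      have : ∑ i ∈ Finset.range n, ‖A ((B ^ i) y)‖ ^ 2 + ‖(B ^ n) y‖ ^ 2 ≤ ‖y‖ ^ 2 := by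
        induction n with
        | zero => simp
        | succ n ih =>
          rw [Finset.sum_range_succ, pow_succ' B]
          have := hBz ((B ^ n) y)
          change _ + ‖B ((B ^ n) y)‖ ^ 2 ≤ _
          linarith
      nlinarith [sq_nonneg ‖(B ^ n) y‖]
    have h1 := hs.tendsto_atTop_zero
    simp only [hcomm]
    rw [tendsto_zero_iff_norm_tendsto_zero]
    have h2 := h1.sqrt
    simpa [Real.sqrt_sq (norm_nonneg _)] using h2
  rw [Metric.tendsto_atTop]
  intro ε hε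
  obtain ⟨x, hx, hxu⟩ := Metric.mem_closure_iff.1 hu (ε / 2) (by positivity)
  obtain ⟨y, rfl⟩ := hx
  obtain ⟨N, hN⟩ := Metric.tendsto_atTop.1 (hrange y) (ε / 2) (by positivity)
  refine ⟨N, fun n hn => ?_⟩
  have h1 := hN n hn
  rw [dist_zero_right] at h1 ⊢
  rw [dist_eq_norm] at hxu
  have h2 : (B ^ n) u = (B ^ n) (u - A y) + (B ^ n) (A y) := by rw [map_sub]; abel
  have h3 := hBn n (u - A y)
  have h4 := norm_add_le ((B ^ n) (u - A y)) ((B ^ n) (A y))
  change ‖u - A y‖ < _ at hxu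
  rw [h2]; linarith

theorem sa_pow (B : H →L[ℝ] H) (hB : ∀ x y, ⟪B x, y⟫ = ⟪x, B y⟫) (n : ℕ) :
    ∀ x y, ⟪(B ^ n) x, y⟫ = ⟪x, (B ^ n) y⟫ := by
  induction n with
  | zero => intro x y; simp
  | succ n ih =>
    intro x y
    conv_lhs => rw [pow_succ']
    conv_rhs => rw [pow_succ]
    change ⟪B ((B ^ n) x), y⟫ = ⟪x, (B ^ n) (B y)⟫
    rw [hB, ih]

theorem dim_le {ι : Type*} [Fintype ι] (d : ι → H) (T : H →L[ℝ] H) (hT : ‖T‖ ≤ 1)
    (htr : ∀ k : ℕ, ∑ i, ⟪d i, (((1 - adjoint T * T) ^ k * adjoint T) * T) (d i)⟫ =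
      ∑ i, ⟪d i, (T * ((1 - adjoint T * T) ^ k * adjoint T)) (d i)⟫)
    (U V : Submodule ℝ H) [U.HasOrthogonalProjection] [V.HasOrthogonalProjection]
    (hU : ∀ u ∈ U, ∀ x, T x = 0 → ⟪u, x⟫ = 0) (hV : ∀ x, T x ∈ V) :
    ∑ i, ‖U.starProjection (d i)‖ ^ 2 ≤ ∑ i, ‖V.starProjection (d i)‖ ^ 2 := by
  set B : H →L[ℝ] H := 1 - adjoint T * T with hB
  set B' : H →L[ℝ] H := 1 - T * adjoint T with hB'
  have hmul : ∀ (X Y : H →L[ℝ] H) x, (X * Y) x = X (Y x) := fun _ _ _ => rfl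
  have hBa : ∀ x, B x = x - adjoint T (T x) := fun x => rfl
  have hBa' : ∀ x, B' x = x - T (adjoint T x) := fun x => rfl
  have hsa : ∀ x y, ⟪B x, y⟫ = ⟪x, B y⟫ := fun x y => by
    rw [hBa, hBa, inner_sub_left, inner_sub_right, adjoint_inner_left, adjoint_inner_right]
  have hsa' : ∀ x y, ⟪B' x, y⟫ = ⟪x, B' y⟫ := fun x y => by
    rw [hBa', hBa', inner_sub_left, inner_sub_right, ← adjoint_inner_right T,
      ← adjoint_inner_left T]
  have hTB : ∀ k : ℕ, T * B ^ k = B' ^ k * T := by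
    intro k
    have h1 : T * B = B' * T := by simp only [hB, hB']; noncomm_ring
    induction k with
    | zero => simp
    | succ k ih => rw [pow_succ, ← mul_assoc, ih, mul_assoc, h1, ← mul_assoc, ← pow_succ]
  have h1 : ∀ n : ℕ, ∑ i, ⟪d i, (B ^ n) (d i)⟫ = ∑ i, ⟪d i, (B' ^ n) (d i)⟫ := by
    intro n
    induction n with
    | zero => simp
    | succ n ih =>
      have e1 : B ^ (n + 1) = B ^ n - (B ^ n * adjoint T) * T := by
        rw [pow_succ]; nth_rewrite 2 [hB]; noncomm_ring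
      have e2 : B' ^ (n + 1) = B' ^ n - T * (B ^ n * adjoint T) := by
        rw [pow_succ, ← mul_assoc, hTB]; nth_rewrite 2 [hB']; noncomm_ring
      rw [e1, e2]
      simp only [sub_apply, inner_sub_right, Finset.sum_sub_distrib]
      rw [ih, htr]
  have h2 : ∀ n : ℕ, ∑ i, ‖(B ^ n) (d i)‖ ^ 2 = ∑ i, ‖(B' ^ n) (d i)‖ ^ 2 := by
    intro n
    have := h1 (n + n)
    simp only [pow_add, hmul] at this
    simp only [← real_inner_self_eq_norm_sq, sa_pow B hsa n, sa_pow B' hsa' n]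
    exact this
  have h3 : ∀ n : ℕ, ∀ x, ‖x‖ ^ 2 - ‖V.starProjection x‖ ^ 2 ≤ ‖(B' ^ n) x‖ ^ 2 := by
    intro n x
    set u := V.starProjection x with hu
    set w := x - u with hw
    have huV : u ∈ V := V.starProjection_apply_mem x
    have hwV : w ∈ Vᗮ := V.sub_starProjection_mem_orthogonal x
    have hTw : adjoint T w = 0 := by
      refine ext_inner_right ℝ fun y => ?_
      rw [adjoint_inner_left, inner_zero_left]
      exact Submodule.inner_left_of_mem_orthogonal (hV y) hwV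
    have hBw : ∀ k : ℕ, (B' ^ k) w = w := by
      intro k
      induction k with
      | zero => simp
      | succ k ih => rw [pow_succ', hmul, ih, hBa', hTw]; simp
    have hBu : ∀ k : ℕ, (B' ^ k) u ∈ V := by
      intro k
      induction k with
      | zero => simpa using huV
      | succ k ih => rw [pow_succ', hmul, hBa']; exact V.sub_mem ih (hV _)
    have hx : x = u + w := by simp [hw]
    have e1 : ‖x‖ ^ 2 = ‖u‖ ^ 2 + ‖w‖ ^ 2 := by
      conv_lhs => rw [hx]
      rw [norm_add_sq_real, Submodule.inner_right_of_mem_orthogonal huV hwV]; ring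
    have e2 : ‖(B' ^ n) x‖ ^ 2 = ‖(B' ^ n) u‖ ^ 2 + ‖w‖ ^ 2 := by
      conv_lhs => rw [hx]
      rw [map_add, hBw, norm_add_sq_real, Submodule.inner_right_of_mem_orthogonal (hBu n) hwV]; ring
    nlinarith [sq_nonneg ‖(B' ^ n) u‖]
  set W := (LinearMap.range (adjoint T * T : H →L[ℝ] H).toLinearMap).topologicalClosure with hW
  have h4 : ∀ x, Tendsto (fun n : ℕ => ‖(B ^ n) x‖ ^ 2) atTop
      (𝓝 (‖x - W.starProjection x‖ ^ 2)) ∧
      ‖x - W.starProjection x‖ ^ 2 ≤ ‖x‖ ^ 2 - ‖U.starProjection x‖ ^ 2 := by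
    intro x
    set u := W.starProjection x with hu
    set w := x - u with hw
    have huW : u ∈ W := W.starProjection_apply_mem x
    have hwW : w ∈ Wᗮ := W.sub_starProjection_mem_orthogonal x
    have hTw : T w = 0 := by
      have : ⟪adjoint T (T w), w⟫ = 0 :=
        Submodule.inner_right_of_mem_orthogonal
          (Submodule.le_topologicalClosure _ (LinearMap.mem_range_self _ w)) hwW
      rw [adjoint_inner_left, inner_self_eq_zero] at this
      exact this
    have hBw : ∀ k : ℕ, (B ^ k) w = w := by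
      intro k
      induction k with
      | zero => simp
      | succ k ih => rw [pow_succ', hmul, ih, hBa, hTw]; simp
    have hx : x = u + w := by simp [hw]
    constructor
    · have := ((pow_tendsto T hT u huW).add_const w).norm.pow 2
      rw [zero_add] at this
      refine this.congr fun n => ?_
      conv_rhs => rw [hx]
      rw [map_add, hBw]
    · have e1 : ‖x‖ ^ 2 = ‖u‖ ^ 2 + ‖w‖ ^ 2 := by
        conv_lhs => rw [hx]
        rw [norm_add_sq_real, Submodule.inner_right_of_mem_orthogonal huW hwW]; ring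
      have e2 : U.starProjection x = U.starProjection u := by
        conv_lhs => rw [hx]
        rw [map_add, (U.starProjection_apply_eq_zero_iff).2 (fun y hy => hU y hy w hTw), add_zero]
      have e3 : ‖U.starProjection u‖ ≤ ‖u‖ := U.norm_starProjection_apply_le u
      have := pow_le_pow_left₀ (norm_nonneg _) e3 2
      rw [e2]; linarith
  have h5 : Tendsto (fun n : ℕ => ∑ i, ‖(B ^ n) (d i)‖ ^ 2) atTop
      (𝓝 (∑ i, ‖d i - W.starProjection (d i)‖ ^ 2)) :=
    tendsto_finsetSum _ fun i _ => (h4 (d i)).1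
  have h6 : ∑ i, (‖d i‖ ^ 2 - ‖V.starProjection (d i)‖ ^ 2) ≤
      ∑ i, ‖d i - W.starProjection (d i)‖ ^ 2 :=
    ge_of_tendsto' h5 fun n => by
      rw [h2]; exact Finset.sum_le_sum fun i _ => h3 n (d i)
  have h7 := h6.trans (Finset.sum_le_sum fun i _ => (h4 (d i)).2)
  simp only [Finset.sum_sub_distrib] at h7
  linarith

end Pool.Agent.Work.MP_01d39a_al.B1
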