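import Pool.Agent.Work.MP_01d39a_al.B1.Dim

open scoped RealInnerProductSpace BigOperators Topology
open Filter ContinuousLinearMap

namespace Pool.Agent.Work.MP_01d39a_al.B1

/-- Real square summable functions. -/
abbrev L (G : Type*) := lp (fun _ : G => ℝ) 2

variable {G : Type*}

theorem mem_comp (e : G ≃ G) (f : L G) : Memℓp (fun x => f (e x)) 2 := by
  apply memℓp_gen
  exact (e.summable_iff (f := fun x => ‖f x‖ ^ (2 : ENNReal).toReal)).2
    ((lp.memℓp f).summable (by norm_num))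

theorem inner_L (f g : L G) : ⟪f, g⟫ = ∑' x, f x * g x := by
  rw [lp.inner_eq_tsum]
  exact tsum_congr fun x => by simp [mul_comm]

/-- Reindexing along a permutation. -/
noncomputable def perm (e : G ≃ G) : L G ≃ₗᵢ[ℝ] L G :=
  LinearEquiv.isometryOfInner
    { toFun := fun f => ⟨fun x => f (e x), mem_comp e f⟩
      map_add' := fun _ _ => rfl
      map_smul' := fun _ _ => rfl
      invFun := fun f => ⟨fun x => f (e.symm x), mem_comp e.symm f⟩
      left_inv := fun f => lp.ext (funext fun x => by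
        change f (e (e.symm x)) = f x
        rw [e.apply_symm_apply])
      right_inv := fun f => lp.ext (funext fun x => by
        change f (e.symm (e x)) = f x
        rw [e.symm_apply_apply]) }
    (fun f g => by
      rw [inner_L, inner_L]
      exact e.tsum_eq fun x => f x * g x)

theorem perm_apply (e : G ≃ G) (f : L G) (x : G) : perm e f x = f (e x) := rfl

variable [Group G]

/-- Left regular representation. -/
noncomputable def lam : G →* (L G ≃ₗᵢ[ℝ] L G) where
  toFun g := perm (Equiv.mulLeft g⁻¹)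
  map_one' := by
    ext f x
    simp [perm_apply]
  map_mul' g h := by
    ext f x
    simp [perm_apply, mul_assoc]

theorem lam_apply (g : G) (f : L G) (x : G) : lam g f x = f (g⁻¹ * x) := rfl

/-- Right regular representation. -/
noncomputable def rho (g : G) : L G ≃ₗᵢ[ℝ] L G := perm (Equiv.mulRight g)

theorem rho_apply (g : G) (f : L G) (x : G) : rho g f x = f (x * g) := rfl

theorem lam_rho (g h : G) (f : L G) : lam g (rho h f) = rho h (lam g f) :=
  lp.ext (funext fun x => by rw [lam_apply, rho_apply, rho_apply, lam_apply, mul_assoc])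

theorem lam_mul (g h : G) (f : L G) : lam (g * h) f = lam g (lam h f) := by rw [map_mul]; rfl

theorem lam_fixed {a : G} (ha : ¬ IsOfFinOrder a) {f : L G} (hf : lam a f = f) : f = 0 := by
  have h1 : ∀ n : ℕ, ∀ x, f (a ^ n * x) = f x := by
    intro n
    induction n with
    | zero => intro x; simp
    | succ n ih =>
      intro x
      rw [← ih x]
      conv_lhs => rw [← hf, lam_apply, pow_succ', mul_assoc, inv_mul_cancel_left]
  refine lp.ext (funext fun x => ?_)
  have h2 := ((lp.memℓp f).summable (by norm_num)).tendsto_cofinite_zero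
  have hinj : Function.Injective fun n : ℕ => a ^ n * x := fun m n h =>
    injective_pow_iff_not_isOfFinOrder.2 ha (mul_right_cancel h)
  have h3 := h2.comp hinj.tendsto_cofinite
  have h4 : ((fun i => ‖f i‖ ^ (2 : ENNReal).toReal) ∘ fun n : ℕ => a ^ n * x) =
      fun _ => ‖f x‖ ^ (2 : ENNReal).toReal := funext fun n => by simp [h1]
  rw [h4, tendsto_const_nhds_iff] at h3
  simpa using h3

theorem lam_fs (v : L G) (ε : ℝ) (hε : 0 < ε) :
    ∃ v' : L G, ‖v - v'‖ ≤ ε ∧ {g | ⟪v', lam g v'⟫ ≠ 0}.Finite := by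
  classical
  have h := lp.hasSum_single (by norm_num) v
  obtain ⟨s, hs⟩ := (Metric.tendsto_nhds.1 h ε hε).exists
  refine ⟨∑ i ∈ s, lp.single 2 i (v i), by rw [norm_sub_rev, ← dist_eq_norm]; exact hs.le, ?_⟩
  refine ((s ×ˢ s).image fun q => q.1 * q.2⁻¹).finite_toSet.subset fun g hg => ?_
  by_contra hn
  apply hg
  have hz : ∀ x ∉ s, (∑ i ∈ s, lp.single 2 i (v i) : L G) x = 0 := by
    intro x hx
    rw [lp.coeFn_sum, Finset.sum_apply]
    exact Finset.sum_eq_zero fun i hi => lp.single_apply_ne _ _ _ (fun h => hx (h ▸ hi))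
  rw [inner_L]
  refine (tsum_congr fun x => ?_).trans tsum_zero
  by_cases h1 : x ∈ s
  · by_cases h2 : g⁻¹ * x ∈ s
    · exact (hn (Finset.mem_coe.2 (Finset.mem_image.2
        ⟨(x, g⁻¹ * x), Finset.mem_product.2 ⟨h1, h2⟩, by simp⟩))).elim
    · rw [lam_apply, hz _ h2, mul_zero]
  · rw [hz _ h1, zero_mul]

/-- Finite direct sums of copies of `L G`. -/
abbrev K (ι G : Type*) := PiLp 2 (fun _ : ι => L G)

variable {ι : Type*} [Fintype ι]

/-- Right regular representation on direct sums. -/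
noncomputable def rhoK (g : G) : K ι G ≃ₗᵢ[ℝ] K ι G :=
  LinearIsometryEquiv.piLpCongrRight 2 fun _ => rho g

theorem rhoK_apply (g : G) (v : K ι G) (i : ι) : rhoK g v i = rho g (v i) := rfl

theorem rhoK_inv (g : G) (v : K ι G) : rhoK g⁻¹ (rhoK g v) = v := by
  ext i x
  rw [rhoK_apply, rho_apply, rhoK_apply, rho_apply]; simp

theorem inner_rhoK (g : G) (v w : K ι G) : ⟪rhoK g v, w⟫ = ⟪v, rhoK g⁻¹ w⟫ := by
  rw [← (rhoK g⁻¹).inner_map_map, rhoK_inv]

open Classical in
/-- Point masses. -/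
noncomputable def dl (i : ι) (x : G) : K ι G := PiLp.single 2 i (lp.single 2 x 1)

omit [Group G] in
theorem inner_dl (i : ι) (x : G) (v : K ι G) : ⟪dl i x, v⟫ = v i x := by
  classical
  rw [PiLp.inner_apply, Finset.sum_eq_single i]
  · simp only [dl, PiLp.single_eq_same]
    rw [lp.inner_single_left]; simp
  · intro j _ hj
    simp only [dl, PiLp.single_eq_of_ne _ hj, inner_zero_left]
  · simp

theorem rhoK_dl (i : ι) (x : G) : rhoK x⁻¹ (dl i (1 : G)) = dl i x := by
  refine ext_inner_right ℝ fun v => ?_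
  rw [inner_rhoK, inner_dl, inner_dl, rhoK_apply, rho_apply]; simp

/-- Equivariant operators. -/
def Eqv (X : K ι G →L[ℝ] K ι G) : Prop := ∀ g v, X (rhoK g v) = rhoK g (X v)

theorem Eqv.mul {X Y : K ι G →L[ℝ] K ι G} (hX : Eqv X) (hY : Eqv Y) : Eqv (X * Y) := fun g v => by
  change X (Y _) = rhoK g (X (Y v))
  rw [hY, hX]

theorem Eqv.one : Eqv (1 : K ι G →L[ℝ] K ι G) := fun _ _ => rfl

theorem Eqv.sub {X Y : K ι G →L[ℝ] K ι G} (hX : Eqv X) (hY : Eqv Y) : Eqv (X - Y) := fun g v => by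
  rw [sub_apply, sub_apply, hX, hY, map_sub]

theorem Eqv.smul {X : K ι G →L[ℝ] K ι G} (hX : Eqv X) (c : ℝ) : Eqv (c • X) := fun g v => by
  rw [smul_apply, smul_apply, hX, map_smul]

theorem Eqv.pow {X : K ι G →L[ℝ] K ι G} (hX : Eqv X) (n : ℕ) : Eqv (X ^ n) := by
  induction n with
  | zero => rw [pow_zero]; exact Eqv.one
  | succ n ih => rw [pow_succ]; exact ih.mul hX

theorem Eqv.adj {X : K ι G →L[ℝ] K ι G} (hX : Eqv X) : Eqv (adjoint X) := fun g v => by
  refine ext_inner_right ℝ fun w => ?_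
  rw [adjoint_inner_left, inner_rhoK, inner_rhoK, adjoint_inner_left, hX]

theorem Eqv.proj (U : Submodule ℝ (K ι G)) [U.HasOrthogonalProjection]
    (hU : ∀ g, ∀ u ∈ U, rhoK g u ∈ U) : Eqv U.starProjection := fun g v => by
  refine Submodule.eq_starProjection_of_mem_of_inner_eq_zero
    (hU g _ (U.starProjection_apply_mem v)) fun w hw => ?_
  rw [← map_sub, inner_rhoK]
  exact U.starProjection_inner_eq_zero v _ (hU _ w hw)

theorem trace_formula {X Y : K ι G →L[ℝ] K ι G} (hX : Eqv X) (i : ι) :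
    ⟪dl i (1 : G), (X * Y) (dl i 1)⟫ =
      ∑ j, ∑' x, X (dl j 1) i x⁻¹ * Y (dl i 1) j x := by
  change ⟪dl i (1 : G), X (Y (dl i 1))⟫ = _
  rw [← adjoint_inner_left, PiLp.inner_apply]
  refine Finset.sum_congr rfl fun j _ => ?_
  rw [inner_L]
  refine tsum_congr fun x => ?_
  congr 1
  rw [← inner_dl, adjoint_inner_right, ← rhoK_dl, hX, real_inner_comm, inner_dl, rhoK_apply,
    rho_apply, one_mul]

theorem trace_comm {X Y : K ι G →L[ℝ] K ι G} (hX : Eqv X) (hY : Eqv Y) :
    ∑ i, ⟪dl i (1 : G), (X * Y) (dl i 1)⟫ = ∑ i, ⟪dl i (1 : G), (Y * X) (dl i 1)⟫ := by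
  simp only [trace_formula hX, trace_formula hY]
  rw [Finset.sum_comm]
  refine Finset.sum_congr rfl fun j _ => Finset.sum_congr rfl fun i _ => ?_
  rw [← (Equiv.inv G).tsum_eq]
  exact tsum_congr fun x => by simp [mul_comm]

theorem dim_le_eqv (T : K ι G →L[ℝ] K ι G) (hT : ‖T‖ ≤ 1) (hE : Eqv T)
    (U V : Submodule ℝ (K ι G)) [U.HasOrthogonalProjection] [V.HasOrthogonalProjection]
    (hU : ∀ u ∈ U, ∀ x, T x = 0 → ⟪u, x⟫ = 0) (hV : ∀ x, T x ∈ V) :
    ∑ i, ‖U.starProjection (dl i (1 : G))‖ ^ 2 ≤ ∑ i, ‖V.starProjection (dl i (1 : G))‖ ^ 2 :=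
  dim_le (fun i => dl i (1 : G)) T hT
    (fun k => trace_comm (((Eqv.one.sub (hE.adj.mul hE)).pow k).mul hE.adj) hE) U V hU hV

theorem eq_of_dim_le (Z B : Submodule ℝ (K ι G)) [Z.HasOrthogonalProjection]
    [B.HasOrthogonalProjection] (hZ : ∀ g, ∀ u ∈ Z, rhoK g u ∈ Z)
    (hB : ∀ g, ∀ u ∈ B, rhoK g u ∈ B) (hBZ : B ≤ Z)
    (h : ∑ i, ‖Z.starProjection (dl i (1 : G))‖ ^ 2 ≤ ∑ i, ‖B.starProjection (dl i (1 : G))‖ ^ 2) :
    Z ≤ B := by
  have h1 : ∀ d : K ι G, ‖Z.starProjection d‖ ^ 2 =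
      ‖B.starProjection d‖ ^ 2 + ‖Z.starProjection d - B.starProjection d‖ ^ 2 := by
    intro d
    have e1 : ⟪B.starProjection d, Z.starProjection d - B.starProjection d⟫ = 0 := by
      have m := B.starProjection_apply_mem d
      have a1 := B.starProjection_inner_eq_zero d _ m
      have a2 := Z.starProjection_inner_eq_zero d _ (hBZ m)
      rw [real_inner_comm]
      rw [inner_sub_left] at a1 a2 ⊢
      linarith
    have e2 : Z.starProjection d = B.starProjection d + (Z.starProjection d - B.starProjection d) :=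
      by abel
    conv_lhs => rw [e2]
    rw [norm_add_sq_real, e1]; ring
  simp only [h1, Finset.sum_add_distrib] at h
  have h2 : ∑ i, ‖Z.starProjection (dl i (1 : G)) - B.starProjection (dl i 1)‖ ^ 2 = 0 :=
    le_antisymm (by linarith) (Finset.sum_nonneg fun _ _ => sq_nonneg _)
  rw [Finset.sum_eq_zero_iff_of_nonneg fun _ _ => sq_nonneg _] at h2
  have h3 : ∀ i, Z.starProjection (dl i (1 : G)) = B.starProjection (dl i 1) := fun i => by
    have := h2 i (Finset.mem_univ i)
    rwa [sq_eq_zero_iff, norm_eq_zero, sub_eq_zero] at this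
  have h4 : ∀ w ∈ Z, w ∈ Bᗮ → ∀ i, ⟪dl i (1 : G), w⟫ = 0 := by
    intro w hw hw' i
    have a2 := Z.starProjection_inner_eq_zero (dl i (1 : G)) _ hw
    rw [inner_sub_left, h3, Submodule.inner_right_of_mem_orthogonal
      (B.starProjection_apply_mem _) hw'] at a2
    linarith
  intro z hz
  have hw : z - B.starProjection z ∈ Z := Z.sub_mem hz (hBZ (B.starProjection_apply_mem z))
  have hw' : z - B.starProjection z ∈ Bᗮ := B.sub_starProjection_mem_orthogonal z
  have h5 : z - B.starProjection z = 0 := by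
    ext i x
    have := h4 (rhoK x (z - B.starProjection z)) (hZ _ _ hw) (fun u hu => by
      rw [real_inner_comm, inner_rhoK, real_inner_comm]
      exact hw' _ (hB _ _ hu)) i
    rw [inner_dl, rhoK_apply, rho_apply, one_mul] at this
    exact this
  rw [sub_eq_zero.1 h5]
  exact B.starProjection_apply_mem z

end Pool.Agent.Work.MP_01d39a_al.B1
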