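import Pool.Agent.Work.MP_01d39a_al.B1.Setup

open scoped RealInnerProductSpace BigOperators
open Filter

namespace Pool.Agent.Work.MP_01d39a_al.B1

namespace Setup

variable {G H : Type*} [Group G] [NormedAddCommGroup H] [InnerProductSpace ℝ H] {S : Setup G H}
variable {k : ℕ} {E : Finset G} {η : H} {δ : ℝ} {n : ℕ → ℕ}

theorem Generic.sep (hg : S.Generic k E η δ n) (h1 : (1 : G) ∈ E) (hs : ∀ e ∈ E, e⁻¹ ∈ E)
    {i j : ℕ} (hij : i ≠ j) :
    (pre S.g0 (S.a ^ k) n i)⁻¹ * pre S.g0 (S.a ^ k) n j ∉ E := by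
  intro h
  rcases lt_or_gt_of_ne hij with hlt | hlt
  · refine hg.five j i hlt 0 (by omega) 0 (by omega) _ h 1 h1 ?_
    simp [pre]
  · refine hg.five i j hlt 0 (by omega) 0 (by omega) _ (hs _ h) 1 h1 ?_
    simp [pre]

theorem pre_conj_D (hc : ∀ x ∈ S.D, Commute x (S.a ^ k)) (n : ℕ → ℕ) :
    ∀ i, ∀ x ∈ S.D, pre S.g0 (S.a ^ k) n i * x * (pre S.g0 (S.a ^ k) n i)⁻¹ ∈ S.D
  | 0, x, hx => by simpa [pre] using hx
  | (i + 1), x, hx => by
    have h1 : (S.a ^ k) ^ n i * x * ((S.a ^ k) ^ n i)⁻¹ = x := by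
      rw [← ((hc x hx).pow_right (n i)).eq]; group
    have h2 : pre S.g0 (S.a ^ k) n (i + 1) * x * (pre S.g0 (S.a ^ k) n (i + 1))⁻¹ =
        pre S.g0 (S.a ^ k) n i * (S.g0 * ((S.a ^ k) ^ n i * x * ((S.a ^ k) ^ n i)⁻¹) * S.g0⁻¹) *
          (pre S.g0 (S.a ^ k) n i)⁻¹ := by
      simp only [pre]; group
    rw [h2, h1]
    exact pre_conj_D hc n i _ (S.D_conj hx)

theorem pre_conj_D' (hc : ∀ x ∈ S.D, Commute x (S.a ^ k)) (n : ℕ → ℕ) :
    ∀ i, ∀ x ∈ S.D, (pre S.g0 (S.a ^ k) n i)⁻¹ * x * pre S.g0 (S.a ^ k) n i ∈ S.D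
  | 0, x, hx => by simpa [pre] using hx
  | (i + 1), x, hx => by
    have h0 := S.D_conj' (pre_conj_D' hc n i x hx)
    set y := S.g0⁻¹ * ((pre S.g0 (S.a ^ k) n i)⁻¹ * x * pre S.g0 (S.a ^ k) n i) * S.g0 with hy
    have h1 : ((S.a ^ k) ^ n i)⁻¹ * y * (S.a ^ k) ^ n i = y := by
      rw [mul_assoc, ((hc y h0).pow_right (n i)).eq]; group
    have h2 : (pre S.g0 (S.a ^ k) n (i + 1))⁻¹ * x * pre S.g0 (S.a ^ k) n (i + 1) =
        ((S.a ^ k) ^ n i)⁻¹ * y * (S.a ^ k) ^ n i := by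
      simp only [pre, hy]; group
    rw [h2, h1]
    exact h0

theorem Generic.diag_card (hg : S.Generic k E η δ n) (E1 : Finset G) (hE : E1 ⊆ E)
    (hE' : ∀ e ∈ E1, S.g0 * e * S.g0⁻¹ ∈ E)
    (hst : ∀ x, S.π x (S.c S.g0) = S.c S.g0 → x ∈ E1)
    (hc : ∀ e ∈ E1, e ∈ S.C → Commute e (S.a ^ k)) {s : G} (hs : s ∉ S.D) (I : Finset ℕ)
    (hI : ∀ i ∈ I, (pre S.g0 (S.a ^ k) n i)⁻¹ * s * pre S.g0 (S.a ^ k) n i ∈ E1) :
    I.card ≤ E1.card + 1 := by
  classical
  set p := pre S.g0 (S.a ^ k) n with hp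
  set x : ℕ → G := fun i => (p i)⁻¹ * s * p i with hx
  have hcD : ∀ y ∈ S.D, Commute y (S.a ^ k) := fun y hy =>
    hc y (hst y (S.D_fix hy)) (S.D_le_C hy)
  rcases I.eq_empty_or_nonempty with rfl | hne
  · simp
  set i0 := I.min' hne with hi0
  set i1 := I.max' hne with hi1
  have h0 : x i0 ∈ E := hE (hI _ (I.min'_mem hne))
  have hC : ∀ i, i0 < i → x i ∈ E → x i ∈ S.C := by
    intro i hi hxi
    refine hg.conj i i0 hi _ hxi _ h0 ?_
    simp only [hx, ← hp]; group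
  have hstep : ∀ i, x (i + 1) ∈ E1 → x (i + 1) ∈ S.C → x i = S.g0 * x (i + 1) * S.g0⁻¹ := by
    intro i h1 h2
    have h3 : (S.a ^ k) ^ n i * x (i + 1) * ((S.a ^ k) ^ n i)⁻¹ = x (i + 1) := by
      rw [← ((hc _ h1 h2).pow_right (n i)).eq]; group
    rw [← h3]
    simp only [hx, hp, pre]; group
  have hdown : ∀ r, i0 + r < i1 → x (i1 - r) ∈ E1 ∧ x (i1 - r) ∈ S.C ∧
      x (i1 - r) = S.g0 ^ r * x i1 * (S.g0 ^ r)⁻¹ := by
    intro r
    induction r with
    | zero =>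
      intro h
      have h1 : x i1 ∈ E1 := hI _ (I.max'_mem hne)
      exact ⟨h1, hC _ (by omega) (hE h1), by simp⟩
    | succ r ih =>
      intro h
      obtain ⟨h1, h2, h3⟩ := ih (by omega)
      have e1 : i1 - r = (i1 - (r + 1)) + 1 := by omega
      rw [e1] at h1 h2 h3
      have h4 := hstep _ h1 h2
      have h5 : x (i1 - (r + 1)) ∈ S.C := hC _ (by omega) (by rw [h4]; exact hE' _ h1)
      refine ⟨hst _ (S.fix_of_conj (S.C_le_K h5) ?_), h5, ?_⟩
      · have : S.g0⁻¹ * x (i1 - (r + 1)) * S.g0 = x (i1 - (r + 1) + 1) := by rw [h4]; group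
        rw [this]; exact S.C_le_K h2
      · rw [h4, h3, pow_succ']; group
  have hlen : i1 - i0 ≤ E1.card := by
    by_contra hlt
    push Not at hlt
    have hmaps : ∀ r ∈ Finset.range (i1 - i0), S.g0 ^ r * x i1 * (S.g0 ^ r)⁻¹ ∈ E1 := by
      intro r hr
      have := hdown r (by have := Finset.mem_range.1 hr; omega)
      rw [← this.2.2]; exact this.1
    obtain ⟨r, hr, r', hr', hne', heq⟩ := Finset.exists_ne_map_eq_of_card_lt_of_maps_to
      (by simpa using hlt) hmaps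
    have key : ∀ r r' : ℕ, r < r' → r' < i1 - i0 →
        S.g0 ^ r * x i1 * (S.g0 ^ r)⁻¹ = S.g0 ^ r' * x i1 * (S.g0 ^ r')⁻¹ → False := by
      intro r r' hlt' hr' heq
      obtain ⟨m, rfl⟩ := Nat.exists_eq_add_of_lt hlt'
      have hcomm : Commute (S.g0 ^ (m + 1)) (x i1) := by
        have h3 : S.g0 ^ (r + m + 1) * x i1 * (S.g0 ^ (r + m + 1))⁻¹ =
            S.g0 ^ r * (S.g0 ^ (m + 1) * x i1 * (S.g0 ^ (m + 1))⁻¹) * (S.g0 ^ r)⁻¹ := by
          rw [add_assoc, pow_add]; group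
        rw [h3] at heq
        have h4 := mul_left_cancel (mul_right_cancel heq)
        change S.g0 ^ (m + 1) * x i1 = x i1 * S.g0 ^ (m + 1)
        nth_rewrite 2 [h4]
        group
      have hD : x i1 ∈ S.D := by
        intro j
        have hm : (0 : ℤ) < ((m + 1 : ℕ) : ℤ) := by positivity
        set t := (j % ((m + 1 : ℕ) : ℤ)).toNat with ht
        have ht0 : ((t : ℕ) : ℤ) = j % ((m + 1 : ℕ) : ℤ) :=
          Int.toNat_of_nonneg (Int.emod_nonneg _ hm.ne')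
        have ht1 : t < m + 1 := by
          have := Int.emod_lt_of_pos j hm
          omega
        have hj : j = t + ((m + 1 : ℕ) : ℤ) * (j / ((m + 1 : ℕ) : ℤ)) := by
          rw [ht0]; exact (Int.emod_add_mul_ediv _ _).symm
        have h5 : S.g0 ^ j = S.g0 ^ t * (S.g0 ^ (m + 1)) ^ (j / ((m + 1 : ℕ) : ℤ)) := by
          conv_lhs => rw [hj]
          rw [zpow_add, zpow_natCast, zpow_mul, zpow_natCast]
        have h6 := (hcomm.zpow_left (j / ((m + 1 : ℕ) : ℤ))).eq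
        have h7 : S.g0 ^ j * x i1 * (S.g0 ^ j)⁻¹ = S.g0 ^ t * x i1 * (S.g0 ^ t)⁻¹ := by
          rw [h5, mul_assoc (S.g0 ^ t), h6]; group
        rw [h7, ← (hdown t (by omega)).2.2]
        exact (hdown t (by omega)).2.1
      apply hs
      have := pre_conj_D hcD n i1 _ hD
      have h8 : s = p i1 * x i1 * (p i1)⁻¹ := by simp only [hx]; group
      rw [h8]; exact this
    rcases lt_or_gt_of_ne hne' with h | h
    · exact key r r' h (Finset.mem_range.1 hr') heq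
    · exact key r' r h (Finset.mem_range.1 hr) heq.symm
  have hsub : I ⊆ Finset.Icc i0 i1 := fun i hi =>
    Finset.mem_Icc.2 ⟨I.min'_le i hi, I.le_max' i hi⟩
  have := Finset.card_le_card hsub
  rw [Nat.card_Icc] at this
  omega

theorem Generic.pairs_card (hg : S.Generic k E η δ n) (hsym : ∀ e ∈ E, e⁻¹ ∈ E)
    (E1 : Finset G) (hE : E1 ⊆ E)
    (hE' : ∀ e ∈ E1, S.g0 * e * S.g0⁻¹ ∈ E)
    (hst : ∀ x, S.π x (S.c S.g0) = S.c S.g0 → x ∈ E1)
    (hc : ∀ e ∈ E1, e ∈ S.C → Commute e (S.a ^ k)) {s : G} (hs : s ∉ S.D) (T : Finset (ℕ × ℕ))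
    (hT : ∀ q ∈ T, (pre S.g0 (S.a ^ k) n q.1)⁻¹ * s * pre S.g0 (S.a ^ k) n q.2 ∈ E1) :
    T.card ≤ E1.card + 3 := by
  classical
  set p := pre S.g0 (S.a ^ k) n with hp
  have hA : (T.filter fun q => q.2 < q.1).card ≤ 1 := by
    have key : ∀ q ∈ T, ∀ q' ∈ T, q.2 < q.1 → q'.2 < q'.1 → q'.1 < q.1 → False := by
      intro q hq q' hq' h1 h2 h3
      refine hg.five q.1 q'.1 h3 q'.2 (by omega) q.2 h1 _ (hE (hT q' hq')) _
        (hsym _ (hE (hT q hq))) ?_
      simp only [← hp]; group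
    have key2 : ∀ q ∈ T, ∀ q' ∈ T, q.1 = q'.1 → q'.2 < q.2 → False := by
      intro q hq q' hq' h1 h3
      refine hg.five q.2 q'.2 h3 0 (by omega) 0 (by omega) _ (hsym _ (hE (hT q' hq'))) _
        (hE (hT q hq)) ?_
      simp only [← hp, h1]; group
    refine Finset.card_le_one.2 fun q hq q' hq' => ?_
    rw [Finset.mem_filter] at hq hq'
    rcases lt_trichotomy q.1 q'.1 with h | h | h
    · exact (key q' hq'.1 q hq.1 hq'.2 hq.2 h).elim
    · rcases lt_trichotomy q.2 q'.2 with h' | h' | h'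
      · exact (key2 q' hq'.1 q hq.1 h.symm h').elim
      · exact Prod.ext h h'
      · exact (key2 q hq.1 q' hq'.1 h h').elim
    · exact (key q hq.1 q' hq'.1 hq.2 hq'.2 h).elim
  have hB : (T.filter fun q => q.1 < q.2).card ≤ 1 := by
    have key : ∀ q ∈ T, ∀ q' ∈ T, q.1 < q.2 → q'.1 < q'.2 → q'.2 < q.2 → False := by
      intro q hq q' hq' h1 h2 h3
      refine hg.five q.2 q'.2 h3 q'.1 (by omega) q.1 h1 _ (hsym _ (hE (hT q' hq'))) _
        (hE (hT q hq)) ?_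
      simp only [← hp]; group
    have key2 : ∀ q ∈ T, ∀ q' ∈ T, q.2 = q'.2 → q'.1 < q.1 → False := by
      intro q hq q' hq' h1 h3
      refine hg.five q.1 q'.1 h3 0 (by omega) 0 (by omega) _ (hE (hT q' hq')) _
        (hsym _ (hE (hT q hq))) ?_
      simp only [← hp, h1]; group
    refine Finset.card_le_one.2 fun q hq q' hq' => ?_
    rw [Finset.mem_filter] at hq hq'
    rcases lt_trichotomy q.2 q'.2 with h | h | h
    · exact (key q' hq'.1 q hq.1 hq'.2 hq.2 h).elim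
    · rcases lt_trichotomy q.1 q'.1 with h' | h' | h'
      · exact (key2 q' hq'.1 q hq.1 h.symm h').elim
      · exact Prod.ext h' h
      · exact (key2 q hq.1 q' hq'.1 h h').elim
    · exact (key q hq.1 q' hq'.1 hq.2 hq'.2 h).elim
  have hC : (T.filter fun q => q.1 = q.2).card ≤ E1.card + 1 := by
    have h1 := hg.diag_card E1 hE hE' hst hc hs ((T.filter fun q => q.1 = q.2).image Prod.fst) (by
      intro i hi
      obtain ⟨q, hq, rfl⟩ := Finset.mem_image.1 hi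
      rw [Finset.mem_filter] at hq
      have := hT q hq.1
      rwa [← hq.2] at this)
    rwa [Finset.card_image_of_injOn] at h1
    intro q hq q' hq' h
    simp only [Finset.coe_filter, Set.mem_ofPred_eq] at hq hq'
    exact Prod.ext h (by rw [← hq.2, ← hq'.2, h])
  have hsub : T ⊆ (T.filter fun q => q.2 < q.1) ∪ (T.filter fun q => q.1 < q.2) ∪
      (T.filter fun q => q.1 = q.2) := by
    intro q hq
    simp only [Finset.mem_union, Finset.mem_filter, hq, true_and]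
    omega
  have h1 := Finset.card_le_card hsub
  have h2 := Finset.card_union_le ((T.filter fun q => q.2 < q.1) ∪ (T.filter fun q => q.1 < q.2))
    (T.filter fun q => q.1 = q.2)
  have h3 := Finset.card_union_le (T.filter fun q => q.2 < q.1) (T.filter fun q => q.1 < q.2)
  omega

end Setup

end Pool.Agent.Work.MP_01d39a_al.B1
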