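import Pool.Agent.Work.MP_01d39a_al.B1.Small
import Pool.Agent.Work.MP_01d39a_al.B1.Pairs

open scoped RealInnerProductSpace BigOperators
open Filter

namespace Pool.Agent.Work.MP_01d39a_al.B1

open Classical in
theorem overlap_count {G : Type*} [Group G] (p : ℕ → G) (A : Finset G) (l : ℕ) (F : Finset G)
    (hF : ∀ e ∈ F, e⁻¹ ∈ F) :
    ∑ ω ∈ A ×ˢ Finset.range l, ∑ ω' ∈ A ×ˢ Finset.range l,
      (if (ω.1 * p ω.2)⁻¹ * (ω'.1 * p ω'.2) ∈ F then (1 : ℝ) else 0) ≤
      2 * F.card * ∑ ω ∈ A ×ˢ Finset.range l, (mu p A l (ω.1 * p ω.2) : ℝ) := by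
  set Ω := A ×ˢ Finset.range l with hΩ
  set ed : G × ℕ → G := fun ω => ω.1 * p ω.2 with hed
  set μ := mu p A l with hμ
  have key : ∀ ω ∈ Ω, ∑ ω' ∈ Ω, (if (ed ω)⁻¹ * ed ω' ∈ F ∧ μ (ed ω') ≤ μ (ed ω) then (1 : ℝ) else 0)
      ≤ F.card * (μ (ed ω) : ℝ) := by
    intro ω _
    rw [Finset.sum_boole]
    norm_cast
    refine Finset.card_le_mul_card_image_of_maps_to (f := fun ω' => (ed ω)⁻¹ * ed ω')
      (t := F) (fun ω' h => (Finset.mem_filter.1 h).2.1) (μ (ed ω)) ?_ |>.trans (by rw [mul_comm])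
    intro e _
    by_cases he : μ (ed ω * e) ≤ μ (ed ω)
    · refine le_trans (Finset.card_le_card fun ω' h => ?_) he
      have h1 := Finset.mem_filter.1 h
      refine Finset.mem_filter.2 ⟨(Finset.mem_filter.1 h1.1).1, ?_⟩
      rw [← h1.2, mul_inv_cancel_left]
    · rw [Finset.filter_eq_empty_iff.2]
      · simp
      · intro ω' h h2
        apply he
        have : ed ω * e = ed ω' := by rw [← h2]; simp
        rw [this]; exact (Finset.mem_filter.1 h).2.2
  have h1 : ∑ ω ∈ Ω, ∑ ω' ∈ Ω,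
      (if (ed ω)⁻¹ * ed ω' ∈ F ∧ μ (ed ω') ≤ μ (ed ω) then (1 : ℝ) else 0) ≤
      F.card * ∑ ω ∈ Ω, (μ (ed ω) : ℝ) := by
    rw [Finset.mul_sum]; exact Finset.sum_le_sum key
  have h2 : ∑ ω ∈ Ω, ∑ ω' ∈ Ω,
      (if (ed ω')⁻¹ * ed ω ∈ F ∧ μ (ed ω) ≤ μ (ed ω') then (1 : ℝ) else 0) ≤
      F.card * ∑ ω ∈ Ω, (μ (ed ω) : ℝ) := by
    rw [Finset.sum_comm]; exact h1
  calc ∑ ω ∈ Ω, ∑ ω' ∈ Ω, (if (ed ω)⁻¹ * ed ω' ∈ F then (1 : ℝ) else 0)
      ≤ ∑ ω ∈ Ω, ∑ ω' ∈ Ω,
        ((if (ed ω)⁻¹ * ed ω' ∈ F ∧ μ (ed ω') ≤ μ (ed ω) then (1 : ℝ) else 0) +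
        (if (ed ω')⁻¹ * ed ω ∈ F ∧ μ (ed ω) ≤ μ (ed ω') then (1 : ℝ) else 0)) := by
        refine Finset.sum_le_sum fun ω _ => Finset.sum_le_sum fun ω' _ => ?_
        by_cases h : (ed ω)⁻¹ * ed ω' ∈ F
        · have h' : (ed ω')⁻¹ * ed ω ∈ F := by simpa using hF _ h
          rcases le_total (μ (ed ω')) (μ (ed ω)) with h3 | h3
          · simp only [h, h', h3, true_and, and_self, if_true]; split_ifs <;> norm_num
          · simp only [h, h', h3, true_and, and_self, if_true]; split_ifs <;> norm_num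
        · simp only [h, false_and, if_false]; split_ifs <;> norm_num
    _ ≤ _ := by
        simp only [Finset.sum_add_distrib]
        linarith

theorem sum_blocks {α : Type*} (A : Finset α) (l : ℕ) (f : α × ℕ → ℝ) :
    ∑ σ ∈ A ×ˢ Finset.range 2, ∑ t ∈ Finset.Ico (σ.2 * l) ((σ.2 + 1) * l), f (σ.1, t) =
      ∑ ω ∈ A ×ˢ Finset.range (2 * l), f ω := by
  rw [Finset.sum_product, Finset.sum_product]
  refine Finset.sum_congr rfl fun y _ => ?_
  simp only [Finset.sum_range_succ, Finset.sum_range_zero, zero_add, zero_mul, one_mul]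
  rw [Finset.sum_Ico_consecutive _ (by omega) (by omega), Finset.range_eq_Ico]

namespace Setup

variable {G H : Type*} [Group G] [NormedAddCommGroup H] [InnerProductSpace ℝ H] {S : Setup G H}

theorem Generic.err {k : ℕ} {E : Finset G} {η : H} {δ : ℝ} {n : ℕ → ℕ} (hδ : 0 ≤ δ)
    (hg : S.Generic k E η δ n) (y : G) {i j : ℕ} (hij : i ≤ j) :
    ‖∑ t ∈ Finset.Ico i j, S.π (y * pre S.g0 (S.a ^ k) n t) η‖ ^ 2 ≤
      ((j : ℝ) - i) * (‖η‖ ^ 2 + 2 * δ) := by
  induction j, hij using Nat.le_induction with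
  | base => simp
  | succ j hij ih =>
    rw [Finset.sum_Ico_succ_top hij, norm_add_sq_real, LinearIsometryEquiv.norm_map]
    have h1 : ⟪∑ t ∈ Finset.Ico i j, S.π (y * pre S.g0 (S.a ^ k) n t) η,
        S.π (y * pre S.g0 (S.a ^ k) n j) η⟫ ≤ δ := by
      rw [sum_inner]
      calc _ ≤ (Finset.Ico i j).card • (δ / j) := by
            refine Finset.sum_le_card_nsmul _ _ _ fun t ht => ?_
            rw [S.act_mul, S.act_mul, LinearIsometryEquiv.inner_map_map]
            exact (le_abs_self _).trans (hg.small j t (Finset.mem_Ico.1 ht).2)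
        _ ≤ j * (δ / j) := by
            rw [nsmul_eq_mul, Nat.card_Ico]
            gcongr
            omega
        _ ≤ δ := by
            rcases Nat.eq_zero_or_pos j with h | h
            · simp [h, hδ]
            · rw [mul_div_cancel₀ _ (by positivity)]
    push_cast
    linarith

variable (S)

open Classical in
theorem hall : ∃ g h : G, (∀ x ∈ S.D, g⁻¹ * x * g ∈ S.D) ∧ (∀ x ∈ S.D, h⁻¹ * x * h ∈ S.D) ∧
    ∀ A : Finset G, (∀ y ∈ A, ∀ y' ∈ A, y⁻¹ * y' ∈ S.D → y = y') →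
      A.card ≤ (A.image S.c ∪ (A.image fun y => S.c (y * g)) ∪
        (A.image fun y => S.c (y * h))).card := by
  obtain ⟨v, hv, hfin⟩ := S.fs (S.c S.g0) (1 / 10) (by norm_num)
  obtain ⟨hv1, -⟩ := S.approx_norm hv
  set F := hfin.toFinset ∪ hfin.toFinset.image (fun e => e⁻¹) with hF
  have hFs : ∀ e ∈ F, e⁻¹ ∈ F := by
    intro e he
    rcases Finset.mem_union.1 he with h | h
    · exact Finset.mem_union_right _ (Finset.mem_image_of_mem _ h)
    · obtain ⟨x, hx, rfl⟩ := Finset.mem_image.1 h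
      rw [inv_inv]; exact Finset.mem_union_left _ hx
  have hF0 : ∀ g ∉ F, ⟪v, S.π g v⟫ = 0 := by
    intro g hg
    by_contra h
    exact hg (Finset.mem_union_left _ (by simpa using h))
  set E1 := F ∪ (S.stab_finite _ S.ξ_ne).toFinset with hE1
  set m0 : ℝ := E1.card + 3 with hm0
  have hm0p : 0 < m0 := by positivity
  obtain ⟨E2, D, L0, hD, hsmall⟩ := S.mult_small (1 / (16 * m0 * (F.card + 1))) (by positivity)
  set E' := insert 1 (E1 ∪ E1.image (fun e => S.g0 * e * S.g0⁻¹) ∪ E2) with hE'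
  set E := E' ∪ E'.image (fun e => e⁻¹) with hE
  have hEs : ∀ e ∈ E, e⁻¹ ∈ E := by
    intro e he
    rcases Finset.mem_union.1 he with h | h
    · exact Finset.mem_union_right _ (Finset.mem_image_of_mem _ h)
    · obtain ⟨x, hx, rfl⟩ := Finset.mem_image.1 h
      rw [inv_inv]; exact Finset.mem_union_left _ hx
  have hE1E : E1 ⊆ E := fun e he => by simp [hE, hE', he]
  have hE2E : E2 ⊆ E := fun e he => by simp [hE, hE', he]
  have hFE1 : F ⊆ E1 := Finset.subset_union_left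
  have h1E : (1 : G) ∈ E := by simp [hE, hE']
  have hcE : ∀ e ∈ E1, S.g0 * e * S.g0⁻¹ ∈ E := fun e he =>
    Finset.mem_union_left _ (Finset.mem_insert_of_mem (Finset.mem_union_left _
      (Finset.mem_union_right _ (Finset.mem_image_of_mem _ he))))
  have hst : ∀ x, S.π x (S.c S.g0) = S.c S.g0 → x ∈ E1 := fun x hx =>
    Finset.mem_union_right _ (by simpa using hx)
  obtain ⟨k, hk, hcomm⟩ := S.exists_pow_comm E1
  obtain ⟨n, hg⟩ := S.exists_generic hk E (v - S.c S.g0) (1 / 100) (by norm_num)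
  set p := pre S.g0 (S.a ^ k) n with hp
  have hw : S.Walk p := hg.walk hk
  have hcD : ∀ y ∈ S.D, Commute y (S.a ^ k) := fun y hy =>
    hcomm y (hst y (S.D_fix hy)) (S.D_le_C hy)
  have hsepE : ∀ i j, i ≠ j → (p i)⁻¹ * p j ∉ E := fun i j hij => hg.sep h1E hEs hij
  set l := D * (L0 + 1) with hl
  have hl0 : 0 < l := by positivity
  refine ⟨p l, p (2 * l), pre_conj_D' hcD n l, pre_conj_D' hcD n (2 * l), fun A hA => ?_⟩
  set V := A.image S.c ∪ (A.image fun y => S.c (y * p l)) ∪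
    (A.image fun y => S.c (y * p (2 * l))) with hV
  have hsum := hsmall p hw (fun i j hij h => hsepE i j hij (hE2E h)) (2 * (L0 + 1)) (by omega) A
  rw [show D * (2 * (L0 + 1)) = 2 * l by rw [hl]; ring] at hsum
  set N := ‖v‖ ^ 2 with hN
  have hN1 : 81 / 100 ≤ N := by
    have : (9 / 10 : ℝ) ^ 2 ≤ ‖v‖ ^ 2 := by gcongr; linarith
    linarith
  set blk : G × ℕ → Finset ℕ := fun σ => Finset.Ico (σ.2 * l) ((σ.2 + 1) * l) with hblk
  have hblkc : ∀ σ, (blk σ).card = l := fun σ => by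
    simp only [hblk, Nat.card_Ico]; rw [add_mul]; omega
  set z' : G × ℕ → H := fun σ => ∑ t ∈ blk σ, S.π (σ.1 * p t) v with hz'
  have hnorm : ∀ σ, ‖z' σ‖ ^ 2 = l * N := fun σ => by
    simp only [hz']
    rw [norm_sum_sq hF0 (fun i j hij h => hsepE i j hij (hE1E (hFE1 h))), hblkc]
  have hrank := rank_ineq (A ×ˢ Finset.range 2) V
    (fun σ => ∑ t ∈ blk σ, S.π (σ.1 * p t) (S.c S.g0)) z' (by
      intro σ hσ
      simp only [Finset.mem_product, Finset.mem_range] at hσ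
      simp only [hblk]
      rw [hw.tele _ (by rw [add_mul]; omega)]
      have m1 : S.c σ.1 ∈ V := by simp only [hV, Finset.mem_union, Finset.mem_image]; grind
      have m2 : S.c (σ.1 * p l) ∈ V := by simp only [hV, Finset.mem_union, Finset.mem_image]; grind
      have m3 : S.c (σ.1 * p (2 * l)) ∈ V := by
        simp only [hV, Finset.mem_union, Finset.mem_image]; grind
      rcases (show σ.2 = 0 ∨ σ.2 = 1 by omega) with h | h
      · rw [h]
        simp only [zero_add, one_mul, zero_mul, hp, pre, mul_one]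
        exact Submodule.sub_mem _ (Submodule.subset_span m2) (Submodule.subset_span m1)
      · rw [h]
        simp only [one_mul]
        exact Submodule.sub_mem _ (Submodule.subset_span m3) (Submodule.subset_span m2))
    (2 * A.card * l * (N - 3 / 100)) (by
      have : 0 ≤ N - 3 / 100 := by linarith
      positivity) (by
      calc 2 * (A.card : ℝ) * l * (N - 3 / 100)
          = (A ×ˢ Finset.range 2).card • (l * (N - 3 / 100) : ℝ) := by simp; ring
        _ ≤ _ := by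
          refine Finset.card_nsmul_le_sum _ _ _ fun σ _ => ?_
          rw [hnorm]
          have h1 := hg.err (by norm_num) σ.1
            (show σ.2 * l ≤ (σ.2 + 1) * l by rw [add_mul]; omega)
          have h2 : z' σ - ∑ t ∈ blk σ, S.π (σ.1 * p t) (S.c S.g0) =
              ∑ t ∈ blk σ, S.π (σ.1 * p t) (v - S.c S.g0) := by
            simp only [hz', map_sub, Finset.sum_sub_distrib]
          rw [h2]
          have h3 : ‖v - S.c S.g0‖ ^ 2 ≤ (1 / 10) ^ 2 := by
            rw [norm_sub_rev]; gcongr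
          have h4 : (((σ.2 + 1) * l : ℕ) : ℝ) - ((σ.2 * l : ℕ) : ℝ) = l := by push_cast; ring
          rw [h4] at h1
          have h5 : (0 : ℝ) ≤ l := by positivity
          nlinarith)
  -- the Gram sum
  set m : G × ℕ → G × ℕ → ℝ := fun σ σ' => ∑ t ∈ blk σ, ∑ t' ∈ blk σ',
    (if (σ.1 * p t)⁻¹ * (σ'.1 * p t') ∈ F then (1 : ℝ) else 0) with hm
  have hm_nonneg : ∀ σ σ', 0 ≤ m σ σ' := fun σ σ' =>
    Finset.sum_nonneg fun _ _ => Finset.sum_nonneg fun _ _ => by split_ifs <;> norm_num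
  have hx : ∀ σ σ', |⟪z' σ, z' σ'⟫| ≤ N * m σ σ' := by
    intro σ σ'
    simp only [hz', hm, Finset.mul_sum]
    rw [sum_inner]
    refine (Finset.abs_sum_le_sum_abs _ _).trans (Finset.sum_le_sum fun t _ => ?_)
    rw [inner_sum]
    refine (Finset.abs_sum_le_sum_abs _ _).trans (Finset.sum_le_sum fun t' _ => ?_)
    split_ifs with h
    · refine (abs_real_inner_le_norm _ _).trans ?_
      rw [LinearIsometryEquiv.norm_map, LinearIsometryEquiv.norm_map, hN, sq, mul_one]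
    · rw [S.inner_act, hF0 _ h]; simp
  have hmle : ∀ σ ∈ A ×ˢ Finset.range 2, ∀ σ' ∈ A ×ˢ Finset.range 2, σ ≠ σ' → m σ σ' ≤ m0 := by
    intro σ hσ σ' hσ' hne
    simp only [Finset.mem_product, Finset.mem_range] at hσ hσ'
    simp only [hm]
    rw [← Finset.sum_product' (f := fun t t' =>
      if (σ.1 * p t)⁻¹ * (σ'.1 * p t') ∈ F then (1 : ℝ) else 0), Finset.sum_boole]
    by_cases hy : σ.1 = σ'.1
    · rw [Finset.filter_eq_empty_iff.2]
      · simpa using hm0p.le
      · intro q hq h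
        have hb : σ.2 ≠ σ'.2 := fun hb => hne (Prod.ext hy hb)
        simp only [hblk, Finset.mem_product, Finset.mem_Ico] at hq
        refine hsepE q.1 q.2 (fun hq' => ?_) (hE1E (hFE1 ?_))
        · rcases (show σ.2 = 0 ∧ σ'.2 = 1 ∨ σ.2 = 1 ∧ σ'.2 = 0 by omega) with h' | h' <;>
            rw [h'.1, h'.2] at hq <;> omega
        · rw [hy] at h
          have : (σ'.1 * p q.1)⁻¹ * (σ'.1 * p q.2) = (p q.1)⁻¹ * p q.2 := by group
          rwa [this] at h
    · have hs : σ.1⁻¹ * σ'.1 ∉ S.D := fun h => hy (hA _ hσ.1 _ hσ'.1 h)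
      have := hg.pairs_card hEs E1 hE1E hcE hst hcomm hs
        ((blk σ ×ˢ blk σ').filter fun q => (σ.1 * p q.1)⁻¹ * (σ'.1 * p q.2) ∈ F) (by
          intro q hq
          have h1 := (Finset.mem_filter.1 hq).2
          have : (σ.1 * p q.1)⁻¹ * (σ'.1 * p q.2) = (p q.1)⁻¹ * (σ.1⁻¹ * σ'.1) * p q.2 := by group
          rw [this] at h1
          exact hFE1 h1)
      rw [hm0]; exact_mod_cast this
  have hmsum : ∑ σ ∈ A ×ˢ Finset.range 2, ∑ σ' ∈ A ×ˢ Finset.range 2, m σ σ' ≤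
      A.card * l ^ 2 / m0 := by
    have h1 : ∑ σ ∈ A ×ˢ Finset.range 2, ∑ σ' ∈ A ×ˢ Finset.range 2, m σ σ' =
        ∑ ω ∈ A ×ˢ Finset.range (2 * l), ∑ ω' ∈ A ×ˢ Finset.range (2 * l),
          (if (ω.1 * p ω.2)⁻¹ * (ω'.1 * p ω'.2) ∈ F then (1 : ℝ) else 0) := by
      rw [← sum_blocks]
      refine Finset.sum_congr rfl fun σ _ => ?_
      simp only [hm]
      rw [Finset.sum_comm]
      refine Finset.sum_congr rfl fun t _ => ?_
      exact sum_blocks A l fun ω' => if (σ.1 * p t)⁻¹ * (ω'.1 * p ω'.2) ∈ F then (1 : ℝ) else 0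
    rw [h1]
    refine (overlap_count p A (2 * l) F hFs).trans ?_
    calc 2 * (F.card : ℝ) * ∑ ω ∈ A ×ˢ Finset.range (2 * l), (mu p A (2 * l) (ω.1 * p ω.2) : ℝ)
        ≤ 2 * (F.card + 1) * (2 * (1 / (16 * m0 * (F.card + 1))) *
            (A.card * ((2 * l : ℕ) : ℝ) ^ 2)) := by
          gcongr
          · linarith
      _ = _ := by push_cast; field_simp; ring
  have hgram : ∑ σ ∈ A ×ˢ Finset.range 2, ∑ σ' ∈ A ×ˢ Finset.range 2, ⟪z' σ, z' σ'⟫ ^ 2 ≤
      3 * A.card * l ^ 2 * N ^ 2 := by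
    calc _ ≤ ∑ σ ∈ A ×ˢ Finset.range 2, ∑ σ' ∈ A ×ˢ Finset.range 2,
          ((if σ = σ' then (l * N) ^ 2 else 0) + N ^ 2 * m0 * m σ σ') := by
          refine Finset.sum_le_sum fun σ hσ => Finset.sum_le_sum fun σ' hσ' => ?_
          have h0 := hm_nonneg σ σ'
          split_ifs with h
          · subst h
            rw [real_inner_self_eq_norm_sq, hnorm]
            have : 0 ≤ N ^ 2 * m0 * m σ σ := by positivity
            linarith
          · have h1 := hmle σ hσ σ' hσ' h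
            have h2 : ⟪z' σ, z' σ'⟫ ^ 2 ≤ (N * m σ σ') ^ 2 := by
              rw [← sq_abs]; exact pow_le_pow_left₀ (abs_nonneg _) (hx σ σ') 2
            have h3 : (N * m σ σ') ^ 2 ≤ N ^ 2 * m0 * m σ σ' := by
              rw [mul_pow, mul_assoc, sq (m σ σ')]; gcongr
            linarith
      _ = 2 * A.card * (l * N) ^ 2 + N ^ 2 * m0 *
          ∑ σ ∈ A ×ˢ Finset.range 2, ∑ σ' ∈ A ×ˢ Finset.range 2, m σ σ' := by
          simp only [Finset.sum_add_distrib, Finset.mul_sum]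
          congr 1
          rw [Finset.sum_congr rfl (g := fun _ => (l * N) ^ 2) fun σ hσ => by
            rw [Finset.sum_ite_eq]; simp only [hσ, if_true]]
          rw [Finset.sum_const, Finset.card_product, Finset.card_range, nsmul_eq_mul]
          push_cast; ring
      _ ≤ 2 * A.card * (l * N) ^ 2 + N ^ 2 * m0 * (A.card * l ^ 2 / m0) := by gcongr
      _ = _ := by field_simp; ring
  have hfin2 : (2 * A.card * l * (N - 3 / 100)) ^ 2 ≤ V.card * (3 * A.card * l ^ 2 * N ^ 2) :=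
    hrank.trans (mul_le_mul_of_nonneg_left hgram (Nat.cast_nonneg _))
  rcases Nat.eq_zero_or_pos A.card with h0 | h0
  · omega
  have hAp : (0 : ℝ) < A.card := by exact_mod_cast h0
  have hlp : (0 : ℝ) < l := by exact_mod_cast hl0
  have h1 : 3 * N ^ 2 ≤ 4 * (N - 3 / 100) ^ 2 := by nlinarith
  have h2 : (A.card : ℝ) * (3 * A.card * l ^ 2 * N ^ 2) ≤ V.card * (3 * A.card * l ^ 2 * N ^ 2) := by
    refine le_trans ?_ hfin2
    calc (A.card : ℝ) * (3 * A.card * l ^ 2 * N ^ 2) = (A.card * l) ^ 2 * (3 * N ^ 2) := by ring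
      _ ≤ (A.card * l) ^ 2 * (4 * (N - 3 / 100) ^ 2) := by gcongr
      _ = _ := by ring
  have h3 : (0 : ℝ) < 3 * A.card * l ^ 2 * N ^ 2 := by
    have : 0 < N := by linarith
    positivity
  exact_mod_cast le_of_mul_le_mul_right h2 h3

end Setup

end Pool.Agent.Work.MP_01d39a_al.B1
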