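import Pool.Agent.Work.MP_01d39a_al.B1.Cocycle

open scoped BigOperators Pointwise

namespace Pool.Agent.Work.MP_01d39a_al.B1

variable {G : Type*}

/-- Real part. -/
noncomputable def reL (f : lp (fun _ : G => ℂ) 2) : L G :=
  ⟨fun x => (f x).re, (lp.memℓp f).mono' fun x => Complex.abs_re_le_norm (f x)⟩

/-- Imaginary part. -/
noncomputable def imL (f : lp (fun _ : G => ℂ) 2) : L G :=
  ⟨fun x => (f x).im, (lp.memℓp f).mono' fun x => Complex.abs_im_le_norm (f x)⟩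

/-- Complexification. -/
noncomputable def ofR (f : L G) : lp (fun _ : G => ℂ) 2 :=
  ⟨fun x => (f x : ℂ), (lp.memℓp f).mono' fun x => by simp⟩

theorem norm_ofR (f : L G) : ‖ofR f‖ ≤ ‖f‖ :=
  lp.norm_mono (by norm_num) fun x => by simp [ofR]

theorem main [Group G] [Group.FG G] {a : G} (ha : ¬ IsOfFinOrder a) :
    (∃ (A : Fin 2 → Set G) (B : Fin 3 → Set G) (g : Fin 2 → G) (h : Fin 3 → G),
    (∀ i j, i ≠ j → Disjoint (A i) (A j)) ∧ (∀ i j, i ≠ j → Disjoint (B i) (B j)) ∧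
    (∀ i j, Disjoint (A i) (B j)) ∧ (⋃ i, g i • A i) = Set.univ ∧ (⋃ j, h j • B j) = Set.univ) ∨
    ∀ b : G → lp (fun _ : G => ℂ) 2, (∀ g h x, b (g * h) x = b g x + b h (g⁻¹ * x)) →
      ∀ ε : ℝ, 0 < ε → ∀ F : Finset G, ∃ b' : G → lp (fun _ : G => ℂ) 2,
        (∃ ξ : lp (fun _ : G => ℂ) 2, ∀ g x, b' g x = ξ (g⁻¹ * x) - ξ x) ∧
        ∀ g ∈ F, ‖b g - b' g‖ < ε := by
  refine (real_main ha).imp_right fun h b hb ε hε F => ?_
  obtain ⟨ξ1, h1⟩ := h (fun g => reL (b g)) (fun g h => lp.ext (funext fun x => by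
    change (b (g * h) x).re = (b g x).re + (b h (g⁻¹ * x)).re
    rw [hb, Complex.add_re])) (ε / 2) (by positivity) F
  obtain ⟨ξ2, h2⟩ := h (fun g => imL (b g)) (fun g h => lp.ext (funext fun x => by
    change (b (g * h) x).im = (b g x).im + (b h (g⁻¹ * x)).im
    rw [hb, Complex.add_im])) (ε / 2) (by positivity) F
  refine ⟨fun g => ofR (lam g ξ1 - ξ1) + Complex.I • ofR (lam g ξ2 - ξ2),
    ⟨ofR ξ1 + Complex.I • ofR ξ2, fun g x => ?_⟩, fun g hg => ?_⟩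
  · change ((ξ1 (g⁻¹ * x) - ξ1 x : ℝ) : ℂ) + Complex.I * ((ξ2 (g⁻¹ * x) - ξ2 x : ℝ) : ℂ) =
      ((ξ1 (g⁻¹ * x) : ℂ) + Complex.I * (ξ2 (g⁻¹ * x) : ℂ)) - ((ξ1 x : ℂ) + Complex.I * (ξ2 x : ℂ))
    push_cast; ring
  · have e : b g - (ofR (lam g ξ1 - ξ1) + Complex.I • ofR (lam g ξ2 - ξ2)) =
        ofR (reL (b g) - (lam g ξ1 - ξ1)) + Complex.I • ofR (imL (b g) - (lam g ξ2 - ξ2)) := by
      refine lp.ext (funext fun x => ?_)
      change b g x - (((ξ1 (g⁻¹ * x) - ξ1 x : ℝ) : ℂ) +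
          Complex.I * ((ξ2 (g⁻¹ * x) - ξ2 x : ℝ) : ℂ)) =
        (((b g x).re - (ξ1 (g⁻¹ * x) - ξ1 x) : ℝ) : ℂ) +
          Complex.I * (((b g x).im - (ξ2 (g⁻¹ * x) - ξ2 x) : ℝ) : ℂ)
      conv_lhs => rw [← Complex.re_add_im (b g x)]
      push_cast; ring
    rw [e]
    refine (norm_add_le _ _).trans_lt ?_
    rw [norm_smul, Complex.norm_I, one_mul]
    have := norm_ofR (reL (b g) - (lam g ξ1 - ξ1))
    have := norm_ofR (imL (b g) - (lam g ξ2 - ξ2))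
    have := h1 g hg
    have := h2 g hg
    linarith

end Pool.Agent.Work.MP_01d39a_al.B1
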