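import Mathlib

namespace Pool.Agent.Work.MP_01d39a_al.B1

/-- A window containing a low position between two heavy positions, and no middle position. -/
def GoodW {α : Type*} (hv lo : α → ℕ → Prop) (D : ℕ) (σ : α × ℕ) : Prop :=
  (∃ i i' i'', i < i' ∧ i' < i'' ∧ i / D = σ.2 ∧ i'' / D = σ.2 ∧ hv σ.1 i ∧ hv σ.1 i'' ∧
    lo σ.1 i') ∧ ∀ t, t / D = σ.2 → hv σ.1 t ∨ lo σ.1 t

theorem fiber_div_card {α : Type*} [DecidableEq α] {D : ℕ} (hD : 0 < D) (s : Finset (α × ℕ))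
    (W : Finset (α × ℕ)) (h : ∀ ω ∈ s, (ω.1, ω.2 / D) ∈ W) : s.card ≤ D * W.card := by
  refine Finset.card_le_mul_card_image_of_maps_to (f := fun ω : α × ℕ => (ω.1, ω.2 / D)) h D ?_
  intro b _
  calc (s.filter fun ω => (ω.1, ω.2 / D) = b).card ≤ (Finset.range D).card := by
        refine Finset.card_le_card_of_injOn (fun ω => ω.2 % D) (fun ω _ => ?_)
          (fun ω hω ω' hω' h => ?_)
        · simpa using Nat.mod_lt _ hD
        · simp only [Finset.coe_filter, Set.mem_ofPred_eq] at hω hω' h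
          have h1 := hω.2.trans hω'.2.symm
          simp only [Prod.mk.injEq] at h1
          refine Prod.ext h1.1 ?_
          rw [← Nat.div_add_mod ω.2 D, ← Nat.div_add_mod ω'.2 D, h1.2, h]
    _ = D := Finset.card_range D

theorem div_between {D i j t : ℕ} (h1 : i ≤ t) (h2 : t ≤ j) (h : i / D = j / D) :
    t / D = j / D :=
  le_antisymm (Nat.div_le_div_right h2) (h ▸ Nat.div_le_div_right h1)

open Classical in
theorem window {α : Type*} (A : Finset α) {D : ℕ} (hD : 0 < D) (L : ℕ) (hv lo : α → ℕ → Prop) :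
    ((A ×ˢ Finset.range (D * L)).filter fun ω : α × ℕ => hv ω.1 ω.2).card ≤
      D * ((A ×ˢ Finset.range L).filter (GoodW hv lo D)).card +
      D * ((A ×ˢ Finset.range (D * L)).filter fun ω : α × ℕ =>
        ¬ hv ω.1 ω.2 ∧ ¬ lo ω.1 ω.2).card +
      2 * (A.card * L) +
      ((A ×ˢ Finset.range (D * L)).filter fun ω : α × ℕ =>
        hv ω.1 ω.2 ∧ hv ω.1 (ω.2 + 1) ∧ hv ω.1 (ω.2 + 2)).card := by
  set Ω := A ×ˢ Finset.range (D * L) with hΩ
  set HΩ := Ω.filter fun ω : α × ℕ => hv ω.1 ω.2 with hHΩ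
  set Mid := Ω.filter fun ω : α × ℕ => ¬ hv ω.1 ω.2 ∧ ¬ lo ω.1 ω.2 with hMid
  set Tri := Ω.filter fun ω : α × ℕ => hv ω.1 ω.2 ∧ hv ω.1 (ω.2 + 1) ∧ hv ω.1 (ω.2 + 2) with hTri
  set S1 := HΩ.filter fun ω => GoodW hv lo D (ω.1, ω.2 / D) with hS1
  set S2 := HΩ.filter fun ω => (ω.1, ω.2 / D) ∈ Mid.image fun ω => (ω.1, ω.2 / D) with hS2
  set S3 := HΩ.filter fun ω => ∀ t < ω.2, t / D = ω.2 / D → ¬ hv ω.1 t with hS3
  set S4 := HΩ.filter fun ω => ∀ t, ω.2 < t → t / D = ω.2 / D → ¬ hv ω.1 t with hS4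
  set S5 := Tri.image fun ω => (ω.1, ω.2 + 1) with hS5
  have hmem : ∀ ω ∈ HΩ, ω.1 ∈ A ∧ ω.2 < D * L ∧ hv ω.1 ω.2 := by
    intro ω hω
    simp only [hHΩ, hΩ, Finset.mem_filter, Finset.mem_product, Finset.mem_range] at hω
    exact ⟨hω.1.1, hω.1.2, hω.2⟩
  have hwin : ∀ ω ∈ HΩ, (ω.1, ω.2 / D) ∈ A ×ˢ Finset.range L := by
    intro ω hω
    obtain ⟨h1, h2, -⟩ := hmem ω hω
    simp only [Finset.mem_product, Finset.mem_range]
    exact ⟨h1, Nat.div_lt_of_lt_mul h2⟩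
  have c1 : S1.card ≤ D * ((A ×ˢ Finset.range L).filter (GoodW hv lo D)).card :=
    fiber_div_card hD _ _ fun ω hω => Finset.mem_filter.2
      ⟨hwin ω (Finset.mem_filter.1 hω).1, (Finset.mem_filter.1 hω).2⟩
  have c2 : S2.card ≤ D * Mid.card :=
    (fiber_div_card hD _ _ fun ω hω => (Finset.mem_filter.1 hω).2).trans
      (Nat.mul_le_mul_left _ Finset.card_image_le)
  have cAL : (A ×ˢ Finset.range L).card = A.card * L := by simp
  have c3 : S3.card ≤ A.card * L := by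
    rw [← cAL]
    refine Finset.card_le_card_of_injOn (fun ω => (ω.1, ω.2 / D))
      (fun ω hω => hwin ω (Finset.mem_filter.1 hω).1) (fun ω hω ω' hω' h => ?_)
    have h1 := Finset.mem_filter.1 (Finset.mem_coe.1 hω)
    have h2 := Finset.mem_filter.1 (Finset.mem_coe.1 hω')
    simp only [Prod.mk.injEq] at h
    refine Prod.ext h.1 ?_
    rcases lt_trichotomy ω.2 ω'.2 with h3 | h3 | h3
    · exact absurd (h.1 ▸ (hmem ω h1.1).2.2) (h2.2 _ h3 h.2)
    · exact h3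
    · exact absurd (h.1 ▸ (hmem ω' h2.1).2.2) (h1.2 _ h3 h.2.symm)
  have c4 : S4.card ≤ A.card * L := by
    rw [← cAL]
    refine Finset.card_le_card_of_injOn (fun ω => (ω.1, ω.2 / D))
      (fun ω hω => hwin ω (Finset.mem_filter.1 hω).1) (fun ω hω ω' hω' h => ?_)
    have h1 := Finset.mem_filter.1 (Finset.mem_coe.1 hω)
    have h2 := Finset.mem_filter.1 (Finset.mem_coe.1 hω')
    simp only [Prod.mk.injEq] at h
    refine Prod.ext h.1 ?_
    rcases lt_trichotomy ω.2 ω'.2 with h3 | h3 | h3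
    · exact absurd (h.1 ▸ (hmem ω' h2.1).2.2) (h1.2 _ h3 h.2.symm)
    · exact h3
    · exact absurd (h.1 ▸ (hmem ω h1.1).2.2) (h2.2 _ h3 h.2)
  have c5 : S5.card ≤ Tri.card := Finset.card_image_le
  have hsub : HΩ ⊆ S1 ∪ S2 ∪ S3 ∪ S4 ∪ S5 := by
    intro ω hω
    by_contra hn
    simp only [Finset.mem_union, not_or] at hn
    obtain ⟨⟨⟨⟨n1, n2⟩, n3⟩, n4⟩, n5⟩ := hn
    obtain ⟨hA, hl, hh⟩ := hmem ω hω
    have m1 : ¬ GoodW hv lo D (ω.1, ω.2 / D) := fun h => n1 (Finset.mem_filter.2 ⟨hω, h⟩)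
    have m2 : ∀ t, t / D = ω.2 / D → hv ω.1 t ∨ lo ω.1 t := by
      intro t ht
      by_contra hc
      apply n2
      refine Finset.mem_filter.2 ⟨hω, Finset.mem_image.2 ⟨(ω.1, t), ?_, by simp [ht]⟩⟩
      simp only [hMid, hΩ, Finset.mem_filter, Finset.mem_product, Finset.mem_range]
      refine ⟨⟨hA, ?_⟩, not_or.1 hc⟩
      have h1 : t / D < L := ht ▸ Nat.div_lt_of_lt_mul hl
      rw [Nat.div_lt_iff_lt_mul hD] at h1
      rwa [mul_comm]
    obtain ⟨i1, hi1, hw1, hh1⟩ : ∃ t < ω.2, t / D = ω.2 / D ∧ hv ω.1 t := by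
      by_contra hc
      apply n3
      refine Finset.mem_filter.2 ⟨hω, fun t ht hw h => hc ⟨t, ht, hw, h⟩⟩
    obtain ⟨i2, hi2, hw2, hh2⟩ : ∃ t, ω.2 < t ∧ t / D = ω.2 / D ∧ hv ω.1 t := by
      by_contra hc
      apply n4
      refine Finset.mem_filter.2 ⟨hω, fun t ht hw h => hc ⟨t, ht, hw, h⟩⟩
    have p1 : hv ω.1 (ω.2 - 1) := by
      rcases (show i1 = ω.2 - 1 ∨ i1 < ω.2 - 1 by omega) with h | h
      · rw [← h]; exact hh1
      · rcases m2 (ω.2 - 1) (div_between (by omega) (by omega) hw1) with h' | h'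
        · exact h'
        · exact (m1 ⟨⟨i1, ω.2 - 1, ω.2, h, by omega, hw1, rfl, hh1, hh, h'⟩, m2⟩).elim
    have p2 : hv ω.1 (ω.2 + 1) := by
      rcases (show i2 = ω.2 + 1 ∨ ω.2 + 1 < i2 by omega) with h | h
      · rw [← h]; exact hh2
      · rcases m2 (ω.2 + 1) ((div_between (by omega) (by omega) hw2.symm).trans hw2) with h' | h'
        · exact h'
        · exact (m1 ⟨⟨ω.2, ω.2 + 1, i2, by omega, h, rfl, hw2, hh, hh2, h'⟩, m2⟩).elim
    apply n5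
    refine Finset.mem_image.2 ⟨(ω.1, ω.2 - 1), ?_, ?_⟩
    · simp only [hTri, hΩ, Finset.mem_filter, Finset.mem_product, Finset.mem_range]
      refine ⟨⟨hA, by omega⟩, p1, ?_, ?_⟩
      · rw [show ω.2 - 1 + 1 = ω.2 by omega]; exact hh
      · rw [show ω.2 - 1 + 2 = ω.2 + 1 by omega]; exact p2
    · exact Prod.ext rfl (by simp only; omega)
  have h0 := Finset.card_le_card hsub
  have u1 := Finset.card_union_le (S1 ∪ S2 ∪ S3 ∪ S4) S5
  have u2 := Finset.card_union_le (S1 ∪ S2 ∪ S3) S4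
  have u3 := Finset.card_union_le (S1 ∪ S2) S3
  have u4 := Finset.card_union_le S1 S2
  omega

end Pool.Agent.Work.MP_01d39a_al.B1
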