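import Pool.Agent.Work.MP_01d39a_al.B1.Tri
import Pool.Agent.Work.MP_01d39a_al.B1.Window

open scoped RealInnerProductSpace BigOperators
open Filter

namespace Pool.Agent.Work.MP_01d39a_al.B1

open Classical in
/-- Multiplicity of an edge. -/
noncomputable def mu {G : Type*} [Group G] (p : ℕ → G) (A : Finset G) (l : ℕ) (z : G) : ℕ :=
  ((A ×ˢ Finset.range l).filter fun ω : G × ℕ => ω.1 * p ω.2 = z).card

theorem mu_le {G : Type*} [Group G] (p : ℕ → G) (A : Finset G) (l : ℕ) (z : G) :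
    mu p A l z ≤ l := by
  classical
  calc mu p A l z ≤ (Finset.range l).card := by
        refine Finset.card_le_card_of_injOn Prod.snd (fun ω hω => ?_) (fun ω hω ω' hω' h => ?_)
        · simp only [Finset.coe_filter, Finset.mem_product, Set.mem_ofPred_eq] at hω
          exact Finset.mem_coe.2 hω.1.2
        · simp only [Finset.coe_filter, Set.mem_ofPred_eq] at hω hω'
          refine Prod.ext ?_ h
          have := hω.2.trans hω'.2.symm
          rw [h] at this
          exact mul_right_cancel this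
    _ = l := Finset.card_range l

namespace Setup

variable {G H : Type*} [Group G] [NormedAddCommGroup H] [InnerProductSpace ℝ H] {S : Setup G H}

theorem norm_sum_sq {p : ℕ → G} {v : H} {E2 : Finset G} (hE : ∀ g ∉ E2, ⟪v, S.π g v⟫ = 0)
    (hsep : ∀ i j, i ≠ j → (p i)⁻¹ * p j ∉ E2) (y : G) (I : Finset ℕ) :
    ‖∑ t ∈ I, S.π (y * p t) v‖ ^ 2 = I.card * ‖v‖ ^ 2 := by
  rw [← real_inner_self_eq_norm_sq, sum_inner]
  rw [← nsmul_eq_mul, ← Finset.sum_const]
  refine Finset.sum_congr rfl fun t ht => ?_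
  rw [inner_sum, Finset.sum_eq_single t]
  · rw [real_inner_self_eq_norm_sq, LinearIsometryEquiv.norm_map]
  · intro b _ hb
    rw [S.inner_act]
    apply hE
    have : (y * p t)⁻¹ * (y * p b) = (p t)⁻¹ * p b := by group
    rw [this]; exact hsep _ _ (Ne.symm hb)
  · intro h; exact absurd ht h

open Classical in
theorem Walk.good_card {p : ℕ → G} (hp : S.Walk p) {D : ℕ} (hD : 0 < D) {v : H}
    (hv : ‖S.c S.g0 - v‖ ≤ 1 / (4 * D)) {E2 : Finset G} (hE : ∀ g ∉ E2, ⟪v, S.π g v⟫ = 0)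
    (hsep : ∀ i j, i ≠ j → (p i)⁻¹ * p j ∉ E2) (A : Finset G) (L : ℕ) (M1 M2 : ℝ)
    (hM1 : 0 ≤ M1) :
    (((A ×ˢ Finset.range L).filter (GoodW (fun y i => M2 < (mu p A (D * L) (y * p i) : ℝ))
      (fun y i => (mu p A (D * L) (y * p i) : ℝ) ≤ M1) D)).card : ℝ) ≤
      4 * (2 * D) ^ 2 * (D * E2.card * M1) *
        (2 * (((A ×ˢ Finset.range (D * L)).image fun ω : G × ℕ => ω.1 * p ω.2).filter
          fun z => M2 < (mu p A (D * L) z : ℝ)).card) := by
  set Ω := A ×ˢ Finset.range (D * L) with hΩ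
  set μ := mu p A (D * L) with hμ
  set Z := (Ω.image fun ω : G × ℕ => ω.1 * p ω.2).filter fun z => M2 < (μ z : ℝ) with hZ
  set Gd := (A ×ˢ Finset.range L).filter (GoodW (fun y i => M2 < (μ (y * p i) : ℝ))
      (fun y i => (μ (y * p i) : ℝ) ≤ M1) D) with hGd
  set V := Z.image S.c ∪ Z.image fun z => S.c (z * S.g0) with hV
  have hVc : (V.card : ℝ) ≤ 2 * Z.card := by
    have h1 := Finset.card_union_le (Z.image S.c) (Z.image fun z => S.c (z * S.g0))
    have h2 : (Z.image S.c).card ≤ Z.card := Finset.card_image_le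
    have h3 : (Z.image fun z => S.c (z * S.g0)).card ≤ Z.card := Finset.card_image_le
    have : V.card ≤ 2 * Z.card := by rw [hV]; omega
    exact_mod_cast this
  have hD1 : (1 : ℝ) ≤ D := by exact_mod_cast hD
  obtain ⟨hv1, hv2⟩ := S.approx_norm hv
  have hq : 1 / (4 * (D : ℝ)) ≤ 1 / 4 := by
    apply one_div_le_one_div_of_le <;> linarith
  have hex : ∀ σ : G × ℕ, ∃ Lo : Finset ℕ, σ ∈ Gd → Lo.Nonempty ∧
      (∀ t ∈ Lo, t / D = σ.2 ∧ (μ (σ.1 * p t) : ℝ) ≤ M1) ∧
      ∑ t ∈ Lo, S.π (σ.1 * p t) (S.c S.g0) ∈ Submodule.span ℝ (V : Set H) := by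
    intro σ
    by_cases hσ : σ ∈ Gd
    swap
    · exact ⟨∅, fun h => absurd h hσ⟩
    obtain ⟨hσ1, ⟨i, i', i'', h1, h2, hw, hw'', hh, hh'', hl⟩, hall⟩ := Finset.mem_filter.1 hσ
    simp only [Finset.mem_product, Finset.mem_range] at hσ1
    have hwt : ∀ t, i ≤ t → t ≤ i'' → t / D = σ.2 := fun t h1 h2 =>
      (div_between h1 h2 (hw.trans hw''.symm)).trans hw''
    have hZm : ∀ t, t / D = σ.2 → M2 < (μ (σ.1 * p t) : ℝ) → σ.1 * p t ∈ Z := by
      intro t ht h
      refine Finset.mem_filter.2 ⟨Finset.mem_image.2 ⟨(σ.1, t), ?_, rfl⟩, h⟩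
      simp only [hΩ, Finset.mem_product, Finset.mem_range]
      refine ⟨hσ1.1, ?_⟩
      have h1 : t / D < L := ht ▸ hσ1.2
      rw [Nat.div_lt_iff_lt_mul hD] at h1
      rwa [mul_comm]
    have hV1 : ∀ z ∈ Z, S.c z ∈ Submodule.span ℝ (V : Set H) := fun z hz =>
      Submodule.subset_span (Finset.mem_coe.2
        (Finset.mem_union_left _ (Finset.mem_image_of_mem _ hz)))
    have hV2 : ∀ z ∈ Z, S.c (z * S.g0) ∈ Submodule.span ℝ (V : Set H) := fun z hz =>
      Submodule.subset_span (Finset.mem_coe.2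
        (Finset.mem_union_right _ (Finset.mem_image_of_mem (fun z => S.c (z * S.g0)) hz)))
    refine ⟨(Finset.Ico i i'').filter fun t => (μ (σ.1 * p t) : ℝ) ≤ M1, fun _ => ⟨⟨i', ?_⟩,
      fun t ht => ?_, ?_⟩⟩
    · exact Finset.mem_filter.2 ⟨Finset.mem_Ico.2 ⟨h1.le, h2⟩, hl⟩
    · have := Finset.mem_filter.1 ht
      exact ⟨hwt t (Finset.mem_Ico.1 this.1).1 (Finset.mem_Ico.1 this.1).2.le, this.2⟩
    · have h3 := Finset.sum_filter_add_sum_filter_not (Finset.Ico i i'')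
        (fun t => (μ (σ.1 * p t) : ℝ) ≤ M1) (fun t => S.π (σ.1 * p t) (S.c S.g0))
      rw [hp.tele σ.1 (h1.trans h2).le] at h3
      rw [eq_sub_of_add_eq h3]
      refine Submodule.sub_mem _ (Submodule.sub_mem _ (hV1 _ (hZm _ hw'' hh''))
        (hV1 _ (hZm _ hw hh))) (Submodule.sum_mem _ fun t ht => ?_)
      have h4 := Finset.mem_filter.1 ht
      have h5 := hwt t (Finset.mem_Ico.1 h4.1).1 (Finset.mem_Ico.1 h4.1).2.le
      have h6 := hZm t h5 ((hall t h5).resolve_right h4.2)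
      rw [S.edge_eq]
      exact Submodule.sub_mem _ (hV2 _ h6) (hV1 _ h6)
  choose Lo hLo using hex
  have hcard : ∀ σ ∈ Gd, (Lo σ).card ≤ D := by
    intro σ hσ
    have := fiber_div_card hD ((Lo σ).image fun t => (σ.1, t)) {σ} (by
      intro ω hω
      obtain ⟨t, ht, rfl⟩ := Finset.mem_image.1 hω
      simp [((hLo σ hσ).2.1 t ht).1])
    rwa [Finset.card_image_of_injective _ (fun a b h => (Prod.mk.inj h).2), Finset.card_singleton,
      mul_one] at this
  have key := rank_crude Gd V (fun σ => ∑ t ∈ Lo σ, S.π (σ.1 * p t) (S.c S.g0))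
    (fun σ => ∑ t ∈ Lo σ, S.π (σ.1 * p t) v) (fun σ hσ => (hLo σ hσ).2.2) (2 * D)
    (D * E2.card * M1) (by positivity) (fun σ hσ => ?_) (fun σ hσ => ?_) (fun σ hσ => ?_)
  · refine key.trans ?_
    gcongr
  · rw [norm_sum_sq hE hsep]
    have h1 : (1 : ℝ) ≤ (Lo σ).card := by exact_mod_cast (hLo σ hσ).1.card_pos
    have h2 : ((Lo σ).card : ℝ) ≤ D := by exact_mod_cast hcard σ hσ
    have h3 : ‖∑ t ∈ Lo σ, S.π (σ.1 * p t) v - ∑ t ∈ Lo σ, S.π (σ.1 * p t) (S.c S.g0)‖
        ≤ 1 / 4 := by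
      rw [← Finset.sum_sub_distrib]
      refine (norm_sum_le _ _).trans ?_
      calc ∑ t ∈ Lo σ, ‖S.π (σ.1 * p t) v - S.π (σ.1 * p t) (S.c S.g0)‖
          ≤ (Lo σ).card • (1 / (4 * (D : ℝ))) := by
            refine Finset.sum_le_card_nsmul _ _ _ fun t _ => ?_
            rw [← map_sub, LinearIsometryEquiv.norm_map, norm_sub_rev]; exact hv
        _ ≤ D * (1 / (4 * (D : ℝ))) := by rw [nsmul_eq_mul]; gcongr
        _ = 1 / 4 := by field_simp
    have h4 : (3 / 4 : ℝ) ^ 2 ≤ ‖v‖ ^ 2 := by gcongr; linarith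
    have h5 := pow_le_pow_left₀ (norm_nonneg _) h3 2
    nlinarith
  · rw [norm_sum_sq hE hsep]
    have h2 : ((Lo σ).card : ℝ) ≤ D := by exact_mod_cast hcard σ hσ
    have h4 : ‖v‖ ^ 2 ≤ (5 / 4 : ℝ) ^ 2 := by gcongr; linarith
    nlinarith [sq_nonneg ‖v‖]
  · refine ⟨((Lo σ ×ˢ E2).biUnion fun q => Ω.filter fun ω : G × ℕ =>
        ω.1 * p ω.2 = σ.1 * p q.1 * q.2 ∧ (μ (ω.1 * p ω.2) : ℝ) ≤ M1).image
        fun ω => (ω.1, ω.2 / D), ?_, fun σ' hσ' hn => ?_⟩
    · refine le_trans (Nat.cast_le.2 (Finset.card_image_le.trans Finset.card_biUnion_le)) ?_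
      push_cast
      calc _ ≤ (Lo σ ×ˢ E2).card • M1 := by
            refine Finset.sum_le_card_nsmul _ _ _ fun q _ => ?_
            by_cases hq : (μ (σ.1 * p q.1 * q.2) : ℝ) ≤ M1
            · refine le_trans ?_ hq
              norm_cast
              refine Finset.card_le_card fun ω hω => ?_
              exact Finset.mem_filter.2 ⟨(Finset.mem_filter.1 hω).1, (Finset.mem_filter.1 hω).2.1⟩
            · rw [Finset.filter_eq_empty_iff.2]
              · simpa using hM1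
              · rintro ω _ ⟨h1, h2⟩
                rw [h1] at h2; exact hq h2
        _ ≤ _ := by
            rw [nsmul_eq_mul, Finset.card_product]; push_cast
            have h2 : ((Lo σ).card : ℝ) ≤ D := by exact_mod_cast hcard σ hσ
            gcongr
    · rw [sum_inner]
      refine Finset.sum_eq_zero fun t ht => ?_
      rw [inner_sum]
      refine Finset.sum_eq_zero fun t' ht' => ?_
      rw [S.inner_act]
      apply hE
      intro he
      apply hn
      have h1 := (hLo σ' hσ').2.1 t' ht'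
      have hσ1 := (Finset.mem_filter.1 hσ').1
      simp only [Finset.mem_product, Finset.mem_range] at hσ1
      refine Finset.mem_image.2 ⟨(σ'.1, t'), Finset.mem_biUnion.2 ⟨(t, _),
        Finset.mem_product.2 ⟨ht, he⟩, Finset.mem_filter.2 ⟨?_, ?_, h1.2⟩⟩, ?_⟩
      · simp only [hΩ, Finset.mem_product, Finset.mem_range]
        refine ⟨hσ1.1, ?_⟩
        have h2 : t' / D < L := h1.1 ▸ hσ1.2
        rw [Nat.div_lt_iff_lt_mul hD] at h2
        rwa [mul_comm]
      · simp only; group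
      · exact Prod.ext rfl h1.1

end Setup

end Pool.Agent.Work.MP_01d39a_al.B1
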