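import Pool.Agent.Work.MP_01d39a_al.B1.Main

open scoped BigOperators Pointwise

namespace Pool.Agent.Work.MP_01d39a_al.B1

variable {G : Type*}

/-- A square summable function as an element of `lp`. -/
noncomputable def mkL (f : G → ℂ) (hf : Summable fun x => ‖f x‖ ^ 2) : lp (fun _ : G => ℂ) 2 :=
  ⟨f, memℓp_gen (by simpa using hf)⟩

theorem summable_sq (f : lp (fun _ : G => ℂ) 2) : Summable fun x => ‖f x‖ ^ 2 := by
  simpa using (lp.memℓp f).summable (by norm_num)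

theorem norm_sq_eq (f : lp (fun _ : G => ℂ) 2) : ‖f‖ ^ 2 = ∑' x, ‖f x‖ ^ 2 := by
  simpa using lp.norm_rpow_eq_tsum (by norm_num) f

theorem inner_eq (f g : lp (fun _ : G => ℂ) 2) :
    inner ℂ f g = ∑' x, (starRingEnd ℂ) (f x) * g x := by
  rw [lp.inner_eq_tsum]
  exact tsum_congr fun x => by simp [mul_comm]

theorem main_plain [Group G] [Group.FG G] {a : G} (ha : ¬ IsOfFinOrder a) :
    (∃ (A : Fin 2 → Set G) (B : Fin 3 → Set G) (g : Fin 2 → G) (h : Fin 3 → G),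
    (∀ i j, i ≠ j → Disjoint (A i) (A j)) ∧ (∀ i j, i ≠ j → Disjoint (B i) (B j)) ∧
    (∀ i j, Disjoint (A i) (B j)) ∧ (⋃ i, g i • A i) = Set.univ ∧ (⋃ j, h j • B j) = Set.univ) ∨
    ∀ b : G → G → ℂ, (∀ g, Summable fun x => ‖b g x‖ ^ 2) →
      (∀ g h x, b (g * h) x = b g x + b h (g⁻¹ * x)) →
      ∀ ε : ℝ, 0 < ε → ∀ F : Finset G, ∃ ξ : G → ℂ, (Summable fun x => ‖ξ x‖ ^ 2) ∧
        ∀ g ∈ F, ∑' x, ‖b g x - (ξ (g⁻¹ * x) - ξ x)‖ ^ 2 < ε := by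
  refine (main ha).imp_right fun h b hb hc ε hε F => ?_
  obtain ⟨b', ⟨ξ, hξ⟩, h1⟩ := h (fun g => mkL (b g) (hb g)) hc (Real.sqrt ε) (by positivity) F
  refine ⟨ξ, summable_sq ξ, fun g hg => ?_⟩
  have h2 := norm_sq_eq (mkL (b g) (hb g) - b' g)
  have h3 : ‖mkL (b g) (hb g) - b' g‖ ^ 2 < ε := by
    rw [← Real.sq_sqrt hε.le]
    exact pow_lt_pow_left₀ (h1 g hg) (norm_nonneg _) two_ne_zero
  rw [h2] at h3
  refine lt_of_eq_of_lt (tsum_congr fun x => ?_) h3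
  rw [← hξ]; rfl

theorem harmonic_zero [Group G] (S : Finset G) (b : G → G → ℂ)
    (hb : ∀ g, Summable fun x => ‖b g x‖ ^ 2)
    (hh : ∀ ξ : G → ℂ, (Summable fun x => ‖ξ x‖ ^ 2) →
      ∑ t ∈ S, ∑' x, (starRingEnd ℂ) (ξ (t⁻¹ * x) - ξ x) * b t x = 0)
    (happ : ∀ ε : ℝ, 0 < ε → ∀ F : Finset G, ∃ ξ : G → ℂ, (Summable fun x => ‖ξ x‖ ^ 2) ∧
        ∀ g ∈ F, ∑' x, ‖b g x - (ξ (g⁻¹ * x) - ξ x)‖ ^ 2 < ε) {s : G} (hs : s ∈ S) :
    ‖b s 1‖ ≤ 0 := by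
  set β : G → lp (fun _ : G => ℂ) 2 := fun g => mkL (b g) (hb g) with hβ
  have key : ∑ t ∈ S, ‖β t‖ ^ 2 ≤ 0 := by
    refine le_of_forall_pos_le_add fun ε hε => ?_
    have hM : 0 < ∑ t ∈ S, ‖β t‖ + 1 := by positivity
    obtain ⟨ξ, hξ, hε'⟩ := happ ((ε / (∑ t ∈ S, ‖β t‖ + 1)) ^ 2) (by positivity) S
    let b' : G → lp (fun _ : G => ℂ) 2 := fun g =>
      mkL (fun x => ξ (g⁻¹ * x)) ((Equiv.mulLeft g⁻¹).summable_iff.2 hξ) - mkL ξ hξ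
    have h0 : ∀ t ∈ S, ‖β t - b' t‖ ≤ ε / (∑ t ∈ S, ‖β t‖ + 1) := by
      intro t ht
      refine (abs_le_of_sq_le_sq' ?_ (by positivity)).2
      rw [norm_sq_eq]
      exact (hε' t ht).le
    have h1 : ∑ t ∈ S, ‖β t‖ ^ 2 = ∑ t ∈ S, (inner ℂ (β t - b' t) (β t)).re := by
      have h2 : ∑ t ∈ S, inner ℂ (b' t) (β t) = 0 := by
        rw [← hh ξ hξ]
        exact Finset.sum_congr rfl fun t _ => inner_eq _ _
      have h3 := congrArg Complex.re h2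
      rw [Complex.re_sum, Complex.zero_re] at h3
      simp only [inner_sub_left (β _), Complex.sub_re, Finset.sum_sub_distrib, h3, sub_zero]
      exact Finset.sum_congr rfl fun t _ => (inner_self_eq_norm_sq (𝕜 := ℂ) (β t)).symm
    rw [h1, zero_add]
    calc ∑ t ∈ S, (inner ℂ (β t - b' t) (β t)).re
        ≤ ∑ t ∈ S, ε / (∑ t ∈ S, ‖β t‖ + 1) * ‖β t‖ := by
          refine Finset.sum_le_sum fun t ht => ?_
          refine (re_inner_le_norm (𝕜 := ℂ) _ _).trans ?_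
          exact mul_le_mul_of_nonneg_right (h0 t ht) (norm_nonneg _)
      _ = ε / (∑ t ∈ S, ‖β t‖ + 1) * ∑ t ∈ S, ‖β t‖ := by rw [Finset.mul_sum]
      _ ≤ ε / (∑ t ∈ S, ‖β t‖ + 1) * (∑ t ∈ S, ‖β t‖ + 1) := by gcongr; linarith
      _ = ε := by field_simp
  have h3 : ‖β s‖ ^ 2 ≤ 0 :=
    (Finset.single_le_sum (f := fun t => ‖β t‖ ^ 2) (fun _ _ => sq_nonneg _) hs).trans key
  have h4 : ‖β s‖ ≤ 0 := by nlinarith [norm_nonneg (β s)]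
  exact (lp.norm_apply_le_norm (by norm_num) (β s) 1).trans h4

end Pool.Agent.Work.MP_01d39a_al.B1
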