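import Mathlib

open scoped RealInnerProductSpace BigOperators

namespace Pool.Agent.Work.MP_01d39a_al.B1

variable {H : Type*} [NormedAddCommGroup H] [InnerProductSpace ℝ H]

theorem gram_ineq {ι κ : Type*} [Fintype κ] (s : Finset ι) (e : κ → H) (he : Orthonormal ℝ e)
    (z : ι → H) :
    (∑ i ∈ s, ∑ k, ⟪e k, z i⟫ ^ 2) ^ 2 ≤
      (Fintype.card κ : ℝ) * ∑ i ∈ s, ∑ j ∈ s, ⟪z i, z j⟫ ^ 2 := by
  classical
  set M : κ → ι → ℝ := fun k i => ⟪e k, z i⟫ with hM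
  set T : κ → H := fun k => ∑ i ∈ s, M k i • z i with hT
  set p : ι → ι → ℝ := fun i j => ∑ k, M k i * M k j with hp
  set X : ℝ := ∑ i ∈ s, ∑ j ∈ s, ⟪z i, z j⟫ ^ 2 with hX
  set P : ℝ := ∑ i ∈ s, ∑ j ∈ s, p i j ^ 2 with hP
  set S : ℝ := ∑ k, ‖T k‖ ^ 2 with hS
  have hinner : ∀ k k', ⟪e k', T k⟫ = ∑ i ∈ s, M k i * M k' i := by
    intro k k'
    simp only [hT, inner_sum, real_inner_smul_right, hM]
  have hP' : P = ∑ k, ∑ k', ⟪e k', T k⟫ ^ 2 := by
    simp only [hinner, hP, hp, sq, Finset.sum_mul_sum]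
    calc ∑ i ∈ s, ∑ j ∈ s, ∑ k, ∑ k', M k i * M k j * (M k' i * M k' j)
        = ∑ i ∈ s, ∑ k, ∑ j ∈ s, ∑ k', M k i * M k j * (M k' i * M k' j) := by
          refine Finset.sum_congr rfl fun i _ => Finset.sum_comm
      _ = ∑ k, ∑ i ∈ s, ∑ j ∈ s, ∑ k', M k i * M k j * (M k' i * M k' j) := Finset.sum_comm
      _ = ∑ k, ∑ i ∈ s, ∑ k', ∑ j ∈ s, M k i * M k j * (M k' i * M k' j) := by
          refine Finset.sum_congr rfl fun k _ => Finset.sum_congr rfl fun i _ => Finset.sum_comm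
      _ = ∑ k, ∑ k', ∑ i ∈ s, ∑ j ∈ s, M k i * M k j * (M k' i * M k' j) := by
          refine Finset.sum_congr rfl fun k _ => Finset.sum_comm
      _ = _ := by
          refine Finset.sum_congr rfl fun k _ => Finset.sum_congr rfl fun k' _ =>
            Finset.sum_congr rfl fun i _ => Finset.sum_congr rfl fun j _ => by ring
  have hPS : P ≤ S := by
    rw [hP', hS]
    refine Finset.sum_le_sum fun k _ => ?_
    have := he.sum_inner_products_le (T k) (s := Finset.univ)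
    simpa [Real.norm_eq_abs, sq_abs] using this
  have hS' : S = ∑ q ∈ s ×ˢ s, ⟪z q.1, z q.2⟫ * p q.1 q.2 := by
    rw [Finset.sum_product]
    simp only [hS, hp, ← real_inner_self_eq_norm_sq, hT, inner_sum, sum_inner,
      real_inner_smul_right, real_inner_smul_left, Finset.mul_sum]
    calc ∑ k, ∑ i ∈ s, ∑ j ∈ s, M k i * (M k j * ⟪z j, z i⟫)
        = ∑ i ∈ s, ∑ k, ∑ j ∈ s, M k i * (M k j * ⟪z j, z i⟫) := Finset.sum_comm
      _ = ∑ i ∈ s, ∑ j ∈ s, ∑ k, M k i * (M k j * ⟪z j, z i⟫) := by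
          refine Finset.sum_congr rfl fun i _ => Finset.sum_comm
      _ = _ := by
          refine Finset.sum_congr rfl fun i _ => Finset.sum_congr rfl fun j _ =>
            Finset.sum_congr rfl fun k _ => by rw [real_inner_comm]; ring
  have hCS : S ^ 2 ≤ X * P := by
    rw [hS', hX, hP, ← Finset.sum_product' (f := fun i j => ⟪z i, z j⟫ ^ 2),
      ← Finset.sum_product' (f := fun i j => p i j ^ 2)]
    exact Finset.sum_mul_sq_le_sq_mul_sq _ _ _
  have hP0 : 0 ≤ P := by positivity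
  have hX0 : 0 ≤ X := by positivity
  have hPX : P ≤ X := by
    rcases hP0.eq_or_lt with h | h
    · rw [← h]; exact hX0
    · have : P * P ≤ X * P := by nlinarith
      exact le_of_mul_le_mul_right this h
  have ht : ∑ k, (∑ i ∈ s, M k i ^ 2) ^ 2 ≤ P := by
    rw [hP']
    refine Finset.sum_le_sum fun k _ => ?_
    have h1 : (∑ i ∈ s, M k i ^ 2) = ⟪e k, T k⟫ := by
      rw [hinner]; simp only [sq]
    rw [h1]
    exact Finset.single_le_sum (f := fun k' => ⟪e k', T k⟫ ^ 2) (fun _ _ => sq_nonneg _)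
      (Finset.mem_univ k)
  rw [Finset.sum_comm]
  have h2 := sq_sum_le_card_mul_sum_sq (s := (Finset.univ : Finset κ))
    (f := fun k => ∑ i ∈ s, M k i ^ 2)
  rw [Finset.card_univ] at h2
  refine h2.trans ?_
  exact mul_le_mul_of_nonneg_left (ht.trans hPX) (Nat.cast_nonneg _)

/-- The rank inequality. -/
theorem rank_ineq {ι : Type*} (s : Finset ι) (V : Finset H) (z z' : ι → H)
    (hz : ∀ i ∈ s, z i ∈ Submodule.span ℝ (V : Set H)) (t : ℝ) (ht0 : 0 ≤ t)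
    (ht : t ≤ ∑ i ∈ s, (‖z' i‖ ^ 2 - ‖z' i - z i‖ ^ 2)) :
    t ^ 2 ≤ (V.card : ℝ) * ∑ i ∈ s, ∑ j ∈ s, ⟪z' i, z' j⟫ ^ 2 := by
  classical
  set U := Submodule.span ℝ (V : Set H) with hU
  haveI : FiniteDimensional ℝ U := FiniteDimensional.span_finset ℝ V
  let b := stdOrthonormalBasis ℝ U
  let e : Fin (Module.finrank ℝ U) → H := fun k => (b k : H)
  have he : Orthonormal ℝ e := b.orthonormal.comp_linearIsometry U.subtypeₗᵢ
  have hr : Module.finrank ℝ U ≤ V.card := finrank_span_finset_le_card V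
  have h1 : ∀ i ∈ s, ‖z' i‖ ^ 2 - ‖z' i - z i‖ ^ 2 ≤ ∑ k, ⟪e k, z' i⟫ ^ 2 := by
    intro i hi
    have hrep : z i = ∑ k, ⟪e k, z i⟫ • e k := by
      have := b.sum_repr' ⟨z i, hz i hi⟩
      have h2 := congrArg (fun u : U => (u : H)) this
      simp only [AddSubmonoidClass.coe_finset_sum, SetLike.val_smul] at h2
      simpa [e] using h2.symm
    have h3 : ⟪z' i, z i⟫ = ∑ k, ⟪e k, z i⟫ * ⟪e k, z' i⟫ := by
      conv_lhs => rw [hrep]
      simp only [inner_sum, real_inner_smul_right]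
      exact Finset.sum_congr rfl fun k _ => by rw [real_inner_comm (e k) (z' i)]
    have h4 : ‖z i‖ ^ 2 = ∑ k, ⟪e k, z i⟫ * ⟪e k, z i⟫ := by
      rw [← real_inner_self_eq_norm_sq]
      nth_rewrite 2 [hrep]
      simp only [inner_sum, real_inner_smul_right]
      exact Finset.sum_congr rfl fun k _ => by rw [real_inner_comm (e k) (z i)]
    rw [norm_sub_sq_real, h3, h4, Finset.mul_sum]
    have : ∑ k, 2 * (⟪e k, z i⟫ * ⟪e k, z' i⟫) - ∑ k, ⟪e k, z i⟫ * ⟪e k, z i⟫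
        ≤ ∑ k, ⟪e k, z' i⟫ ^ 2 := by
      rw [← Finset.sum_sub_distrib]
      exact Finset.sum_le_sum fun k _ => by nlinarith [sq_nonneg (⟪e k, z i⟫ - ⟪e k, z' i⟫)]
    linarith
  have h5 : t ≤ ∑ i ∈ s, ∑ k, ⟪e k, z' i⟫ ^ 2 := ht.trans (Finset.sum_le_sum h1)
  have h6 := gram_ineq s e he z'
  rw [Fintype.card_fin] at h6
  calc t ^ 2 ≤ (∑ i ∈ s, ∑ k, ⟪e k, z' i⟫ ^ 2) ^ 2 := by gcongr
    _ ≤ _ := h6
    _ ≤ _ := by
      gcongr

/-- Crude version of the rank inequality for families with sparse Gram matrix. -/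
theorem rank_crude {ι : Type*} (s : Finset ι) (V : Finset H) (z z' : ι → H)
    (hz : ∀ i ∈ s, z i ∈ Submodule.span ℝ (V : Set H)) (B Δ : ℝ) (hΔ0 : 0 ≤ Δ)
    (h1 : ∀ i ∈ s, 1 / 2 ≤ ‖z' i‖ ^ 2 - ‖z' i - z i‖ ^ 2)
    (hB : ∀ i ∈ s, ‖z' i‖ ^ 2 ≤ B)
    (hΔ : ∀ i ∈ s, ∃ t : Finset ι, (t.card : ℝ) ≤ Δ ∧ ∀ j ∈ s, j ∉ t → ⟪z' i, z' j⟫ = 0) :
    (s.card : ℝ) ≤ 4 * B ^ 2 * Δ * V.card := by
  classical
  have h2 := rank_ineq s V z z' hz (s.card / 2) (by positivity) (by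
    calc (s.card : ℝ) / 2 = ∑ i ∈ s, (1 / 2 : ℝ) := by simp; ring
      _ ≤ _ := Finset.sum_le_sum h1)
  have h3 : ∑ i ∈ s, ∑ j ∈ s, ⟪z' i, z' j⟫ ^ 2 ≤ s.card * (Δ * B ^ 2) := by
    rw [← nsmul_eq_mul]
    refine Finset.sum_le_card_nsmul _ _ _ fun i hi => ?_
    obtain ⟨t, ht, ht0⟩ := hΔ i hi
    have hB0 : 0 ≤ B := (sq_nonneg _).trans (hB i hi)
    calc ∑ j ∈ s, ⟪z' i, z' j⟫ ^ 2 = ∑ j ∈ s ∩ t, ⟪z' i, z' j⟫ ^ 2 := by
          symm
          refine Finset.sum_subset Finset.inter_subset_left fun j hj hjt => ?_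
          rw [ht0 j hj (fun h => hjt (Finset.mem_inter.2 ⟨hj, h⟩))]; simp
      _ ≤ (s ∩ t).card • B ^ 2 := by
          refine Finset.sum_le_card_nsmul _ _ _ fun j hj => ?_
          have hj' := hB j (Finset.mem_inter.1 hj).1
          have := real_inner_mul_inner_self_le (z' i) (z' j)
          rw [real_inner_self_eq_norm_sq, real_inner_self_eq_norm_sq] at this
          calc ⟪z' i, z' j⟫ ^ 2 ≤ ‖z' i‖ ^ 2 * ‖z' j‖ ^ 2 := by rw [sq]; exact this
            _ ≤ B * B := mul_le_mul (hB i hi) hj' (sq_nonneg _) hB0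
            _ = B ^ 2 := by ring
      _ ≤ Δ * B ^ 2 := by
          rw [nsmul_eq_mul]
          refine mul_le_mul_of_nonneg_right (le_trans ?_ ht) (sq_nonneg _)
          exact_mod_cast Finset.card_le_card Finset.inter_subset_right
  rcases Nat.eq_zero_or_pos s.card with h | h
  · rw [h]; push_cast; positivity
  · have hpos : (0 : ℝ) < s.card := by exact_mod_cast h
    have h4 : ((s.card : ℝ) / 2) ^ 2 ≤ V.card * (s.card * (Δ * B ^ 2)) :=
      h2.trans (mul_le_mul_of_nonneg_left h3 (Nat.cast_nonneg _))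
    have : (s.card : ℝ) * s.card ≤ (4 * B ^ 2 * Δ * V.card) * s.card := by nlinarith
    exact le_of_mul_le_mul_right this hpos

end Pool.Agent.Work.MP_01d39a_al.B1
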