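import Mathlib

open scoped RealInnerProductSpace BigOperators
open Filter

namespace Pool.Agent.Work.MP_01d39a_al.B1

/-- Abstract data: an orthogonal representation with finitely supported coefficients on a dense
set, and a cocycle vanishing at an element of infinite order. -/
structure Setup (G H : Type*) [Group G] [NormedAddCommGroup H] [InnerProductSpace ℝ H] where
  π : G →* (H ≃ₗᵢ[ℝ] H)
  c : G → H
  a : G
  g0 : G
  coc : ∀ g h, c (g * h) = c g + π g (c h)
  ca : c a = 0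
  ha : ¬ IsOfFinOrder a
  hξ : ‖c g0‖ = 1
  fs : ∀ v : H, ∀ ε : ℝ, 0 < ε → ∃ v', ‖v - v'‖ ≤ ε ∧ {g | ⟪v', π g v'⟫ ≠ 0}.Finite

namespace Setup

variable {G H : Type*} [Group G] [NormedAddCommGroup H] [InnerProductSpace ℝ H] (S : Setup G H)

theorem act_mul (g h : G) (v : H) : S.π (g * h) v = S.π g (S.π h v) := by
  rw [map_mul]; rfl

theorem act_one (v : H) : S.π 1 v = v := by rw [map_one]; rfl

theorem inner_act (g h : G) (v w : H) : ⟪S.π g v, S.π h w⟫ = ⟪v, S.π (g⁻¹ * h) w⟫ := by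
  have : S.π h w = S.π g (S.π (g⁻¹ * h) w) := by rw [← S.act_mul]; simp
  rw [this, LinearIsometryEquiv.inner_map_map]

theorem c_one : S.c 1 = 0 := by
  have := S.coc 1 1
  rw [mul_one, S.act_one] at this
  exact left_eq_add.mp this

theorem mix (v : H) (γ : ℝ) (hγ : 0 < γ) : {g | γ < |⟪v, S.π g v⟫|}.Finite := by
  obtain ⟨v', hv', hfin⟩ := S.fs v (min 1 (γ / (2 * ‖v‖ + 2))) (by positivity)
  refine hfin.subset fun g hg => ?_
  simp only [Set.mem_setOf_eq] at hg ⊢
  intro h0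
  set ε := min 1 (γ / (2 * ‖v‖ + 2)) with hε
  have hε1 : ε ≤ 1 := min_le_left _ _
  have hε2 : ε * (2 * ‖v‖ + 2) ≤ γ := by
    have : ε ≤ γ / (2 * ‖v‖ + 2) := min_le_right _ _
    rwa [le_div_iff₀ (by positivity)] at this
  have h1 : ⟪v, S.π g v⟫ = ⟪v - v', S.π g v⟫ + ⟪v', S.π g (v - v')⟫ := by
    rw [map_sub, inner_sub_left, inner_sub_right, h0]; ring
  have h2 : |⟪v - v', S.π g v⟫| ≤ ε * ‖v‖ := by
    refine (abs_real_inner_le_norm _ _).trans ?_
    rw [LinearIsometryEquiv.norm_map]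
    gcongr
  have h4 : ‖v'‖ ≤ ‖v‖ + 1 := by
    have : v' = v - (v - v') := by abel
    calc ‖v'‖ = ‖v - (v - v')‖ := by rw [← this]
      _ ≤ ‖v‖ + ‖v - v'‖ := norm_sub_le _ _
      _ ≤ _ := by linarith
  have hε0 : 0 ≤ ε := (norm_nonneg _).trans hv'
  have h3 : |⟪v', S.π g (v - v')⟫| ≤ (‖v‖ + 1) * ε := by
    refine (abs_real_inner_le_norm _ _).trans ?_
    rw [LinearIsometryEquiv.norm_map]
    gcongr
  have h5 := abs_add_le ⟪v - v', S.π g v⟫ ⟪v', S.π g (v - v')⟫
  rw [← h1] at h5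
  nlinarith

theorem stab_finite (v : H) (hv : v ≠ 0) : {g | S.π g v = v}.Finite := by
  have hpos : 0 < ‖v‖ ^ 2 := by positivity
  refine (S.mix v (‖v‖ ^ 2 / 2) (by positivity)).subset fun g hg => ?_
  simp only [Set.mem_setOf_eq] at hg ⊢
  rw [hg, real_inner_self_eq_norm_sq, abs_of_pos hpos]
  linarith

theorem fixed_zero {k : G} (hk : ¬ IsOfFinOrder k) {v : H} (hv : S.π k v = v) : v = 0 := by
  by_contra h
  have hfin := S.stab_finite v h
  have hall : ∀ n : ℕ, S.π (k ^ n) v = v := by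
    intro n
    induction n with
    | zero => rw [pow_zero, S.act_one]
    | succ n ih => rw [pow_succ, S.act_mul, hv, ih]
  have hinj : Function.Injective (fun n : ℕ => k ^ n) := injective_pow_iff_not_isOfFinOrder.2 hk
  exact Set.infinite_of_injective_forall_mem hinj hall hfin

/-- The zero set of the cocycle. -/
def K : Subgroup G where
  carrier := {k | S.c k = 0}
  one_mem' := S.c_one
  mul_mem' := by
    intro x y hx hy
    simp only [Set.mem_setOf_eq] at hx hy ⊢
    rw [S.coc, hx, hy]; simp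
  inv_mem' := by
    intro x hx
    simp only [Set.mem_setOf_eq] at hx ⊢
    have := S.coc x x⁻¹
    rw [mul_inv_cancel, S.c_one, hx, zero_add] at this
    exact (LinearIsometryEquiv.map_eq_zero_iff _).1 this.symm

theorem mem_K {k : G} : k ∈ S.K ↔ S.c k = 0 := Iff.rfl

theorem c_mul_K (g : G) {k : G} (hk : k ∈ S.K) : S.c (g * k) = S.c g := by
  rw [S.coc, S.mem_K.1 hk]; simp

theorem a_mem_K : S.a ∈ S.K := S.ca

theorem fix_of_conj {x g : G} (hx : x ∈ S.K) (hx' : g⁻¹ * x * g ∈ S.K) :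
    S.π x (S.c g) = S.c g := by
  have h1 : S.c (x * g) = S.π x (S.c g) := by rw [S.coc, S.mem_K.1 hx, zero_add]
  have h2 : x * g = g * (g⁻¹ * x * g) := by group
  rw [← h1, h2, S.c_mul_K g hx']

/-- Elements commuting with a positive power of `a`. -/
def C : Subgroup G where
  carrier := {f | ∃ k : ℕ, 0 < k ∧ Commute f (S.a ^ k)}
  one_mem' := ⟨1, one_pos, Commute.one_left _⟩
  mul_mem' := by
    rintro x y ⟨k, hk, hx⟩ ⟨l, hl, hy⟩
    refine ⟨k * l, Nat.mul_pos hk hl, Commute.mul_left ?_ ?_⟩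
    · rw [pow_mul]; exact hx.pow_right _
    · rw [mul_comm, pow_mul]; exact hy.pow_right _
  inv_mem' := by
    rintro x ⟨k, hk, hx⟩
    exact ⟨k, hk, hx.inv_left⟩

theorem not_fin_pow {k : ℕ} (hk : 0 < k) : ¬ IsOfFinOrder (S.a ^ k) := fun h =>
  S.ha ((isOfFinOrder_pow.1 h).resolve_right hk.ne')

theorem C_le_K : S.C ≤ S.K := by
  rintro f ⟨k, hk, hf⟩
  have hK : S.a ^ k ∈ S.K := S.K.pow_mem S.a_mem_K k
  have : S.π (S.a ^ k) (S.c f) = S.c f := by
    refine S.fix_of_conj hK ?_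
    have : f⁻¹ * S.a ^ k * f = S.a ^ k := by
      rw [mul_assoc, ← hf.eq, ← mul_assoc, inv_mul_cancel, one_mul]
    rw [this]; exact hK
  exact S.fixed_zero (S.not_fin_pow hk) this

/-- The finite subgroup that has to be factored out. -/
def D : Subgroup G where
  carrier := {x | ∀ j : ℤ, S.g0 ^ j * x * (S.g0 ^ j)⁻¹ ∈ S.C}
  one_mem' := fun j => by simpa using S.C.one_mem
  mul_mem' := by
    intro x y hx hy j
    have : S.g0 ^ j * (x * y) * (S.g0 ^ j)⁻¹ =
      (S.g0 ^ j * x * (S.g0 ^ j)⁻¹) * (S.g0 ^ j * y * (S.g0 ^ j)⁻¹) := by group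
    rw [this]; exact S.C.mul_mem (hx j) (hy j)
  inv_mem' := by
    intro x hx j
    have : S.g0 ^ j * x⁻¹ * (S.g0 ^ j)⁻¹ = (S.g0 ^ j * x * (S.g0 ^ j)⁻¹)⁻¹ := by group
    rw [this]; exact S.C.inv_mem (hx j)

theorem D_le_C : S.D ≤ S.C := fun x hx => by simpa using hx 0

theorem ξ_ne : S.c S.g0 ≠ 0 := by
  intro h
  have := S.hξ
  rw [h, norm_zero] at this
  exact zero_ne_one this

theorem D_fix {x : G} (hx : x ∈ S.D) : S.π x (S.c S.g0) = S.c S.g0 := by
  refine S.fix_of_conj (S.C_le_K (S.D_le_C hx)) (S.C_le_K ?_)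
  simpa using hx (-1)

theorem D_finite : (S.D : Set G).Finite :=
  (S.stab_finite _ S.ξ_ne).subset fun _ hx => S.D_fix hx

theorem D_conj {x : G} (hx : x ∈ S.D) : S.g0 * x * S.g0⁻¹ ∈ S.D := by
  intro j
  have := hx (j + 1)
  have h2 : S.g0 ^ j * (S.g0 * x * S.g0⁻¹) * (S.g0 ^ j)⁻¹ =
    S.g0 ^ (j + 1) * x * (S.g0 ^ (j + 1))⁻¹ := by group
  rw [h2]; exact this

theorem D_conj' {x : G} (hx : x ∈ S.D) : S.g0⁻¹ * x * S.g0 ∈ S.D := by
  intro j
  have := hx (j - 1)
  have h2 : S.g0 ^ j * (S.g0⁻¹ * x * S.g0) * (S.g0 ^ j)⁻¹ =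
    S.g0 ^ (j - 1) * x * (S.g0 ^ (j - 1))⁻¹ := by group
  rw [h2]; exact this

theorem pow_mem_D {j : ℕ} (h : S.a ^ j ∈ S.D) : j = 0 := by
  by_contra hj
  have hk := S.not_fin_pow (Nat.pos_of_ne_zero hj)
  exact S.ξ_ne (S.fixed_zero hk (S.D_fix h))

/-- A power of `a` commuting with all elements of a finite set that lie in `C`. -/
theorem exists_pow_comm (E : Finset G) :
    ∃ k : ℕ, 0 < k ∧ ∀ e ∈ E, e ∈ S.C → Commute e (S.a ^ k) := by
  classical
  induction E using Finset.induction_on with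
  | empty => exact ⟨1, one_pos, by simp⟩
  | insert x E hx ih =>
    obtain ⟨k, hk, h⟩ := ih
    by_cases hxC : x ∈ S.C
    · obtain ⟨l, hl, hxl⟩ := hxC
      refine ⟨k * l, Nat.mul_pos hk hl, fun e he heC => ?_⟩
      rcases Finset.mem_insert.1 he with rfl | he
      · rw [mul_comm, pow_mul]; exact hxl.pow_right _
      · rw [pow_mul]; exact (h e he heC).pow_right _
    · refine ⟨k, hk, fun e he heC => ?_⟩
      rcases Finset.mem_insert.1 he with rfl | he
      · exact absurd heC hxC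
      · exact h e he heC

end Setup

/-- The walk `p (i+1) = p i * g * α ^ n i`. -/
def pre {G : Type*} [Group G] (g α : G) (n : ℕ → ℕ) : ℕ → G
  | 0 => 1
  | (i + 1) => pre g α n i * g * α ^ n i

theorem pre_congr {G : Type*} [Group G] (g α : G) {n n' : ℕ → ℕ} :
    ∀ j, (∀ i < j, n i = n' i) → pre g α n j = pre g α n' j
  | 0, _ => rfl
  | (j + 1), h => by
    simp only [pre]
    rw [pre_congr g α j (fun i hi => h i (by omega)), h j (by omega)]

theorem exists_seq (Good : (ℕ → ℕ) → ℕ → Prop)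
    (hloc : ∀ n n' j, (∀ i ≤ j, n i = n' i) → Good n j → Good n' j)
    (hex : ∀ n j, ∃ m, Good (Function.update n j m) j) : ∃ n, ∀ j, Good n j := by
  classical
  choose m hm using hex
  let f : ℕ → ℕ → ℕ := fun j => Nat.rec (fun _ => 0) (fun j fj => Function.update fj j (m fj j)) j
  have hf : ∀ j, f (j + 1) = Function.update (f j) j (m (f j) j) := fun j => rfl
  have hstab : ∀ i d, f (i + 1 + d) i = f (i + 1) i := by
    intro i d
    induction d with
    | zero => rfl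
    | succ d ih =>
      rw [← add_assoc, hf, Function.update_of_ne (by omega), ih]
  refine ⟨fun i => f (i + 1) i, fun j => hloc (f (j + 1)) _ j (fun i hi => ?_) ?_⟩
  · obtain ⟨d, rfl⟩ := Nat.exists_eq_add_of_le hi
    have : i + d + 1 = i + 1 + d := by omega
    rw [this, hstab]
  · rw [hf]; exact hm _ _

namespace Setup

variable {G H : Type*} [Group G] [NormedAddCommGroup H] [InnerProductSpace ℝ H] (S : Setup G H)

/-- Genericity of the walk. -/
structure Generic (k : ℕ) (E : Finset G) (η : H) (δ : ℝ) (n : ℕ → ℕ) : Prop where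
  mono : ∀ i j, i < j → n i < n j
  five : ∀ j, ∀ i1 < j, ∀ i2 < j, ∀ i3 < j, ∀ e ∈ E, ∀ e' ∈ E,
    pre S.g0 (S.a ^ k) n j ≠ pre S.g0 (S.a ^ k) n i1 * e * (pre S.g0 (S.a ^ k) n i2)⁻¹ *
      pre S.g0 (S.a ^ k) n i3 * e'
  conj : ∀ j, ∀ i < j, ∀ e ∈ E, ∀ e' ∈ E,
    pre S.g0 (S.a ^ k) n j * e * (pre S.g0 (S.a ^ k) n j)⁻¹ =
      pre S.g0 (S.a ^ k) n i * e' * (pre S.g0 (S.a ^ k) n i)⁻¹ → e ∈ S.C
  small : ∀ j, ∀ i < j,
    |⟪S.π (pre S.g0 (S.a ^ k) n i) η, S.π (pre S.g0 (S.a ^ k) n j) η⟫| ≤ δ / j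

theorem exists_generic {k : ℕ} (hk : 0 < k) (E : Finset G) (η : H) (δ : ℝ) (hδ : 0 < δ) :
    ∃ n, S.Generic k E η δ n := by
  classical
  set α := S.a ^ k with hα
  have hinj : Function.Injective (fun m : ℕ => α ^ m) :=
    injective_pow_iff_not_isOfFinOrder.2 (S.not_fin_pow hk)
  let Good : (ℕ → ℕ) → ℕ → Prop := fun n j =>
    (∀ i < j, n i < n j) ∧
    (∀ i1 ≤ j, ∀ i2 ≤ j, ∀ i3 ≤ j, ∀ e ∈ E, ∀ e' ∈ E,
      pre S.g0 α n j * S.g0 * α ^ n j ≠ pre S.g0 α n i1 * e * (pre S.g0 α n i2)⁻¹ *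
        pre S.g0 α n i3 * e') ∧
    (∀ i ≤ j, ∀ e ∈ E, ∀ e' ∈ E,
      (pre S.g0 α n j * S.g0 * α ^ n j) * e * (pre S.g0 α n j * S.g0 * α ^ n j)⁻¹ =
        pre S.g0 α n i * e' * (pre S.g0 α n i)⁻¹ → e ∈ S.C) ∧
    (∀ i ≤ j, |⟪S.π (pre S.g0 α n i) η, S.π (pre S.g0 α n j * S.g0 * α ^ n j) η⟫| ≤
      δ / ((j + 1 : ℕ) : ℝ))
  obtain ⟨n, hn⟩ := exists_seq Good (by
    intro n n' j h hg
    have hp : ∀ i ≤ j, pre S.g0 α n i = pre S.g0 α n' i := fun i hi =>
      pre_congr _ _ i (fun t ht => h t (by omega))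
    obtain ⟨h1, h2, h3, h4⟩ := hg
    refine ⟨fun i hi => ?_, fun i1 hi1 i2 hi2 i3 hi3 e he e' he' => ?_,
      fun i hi e he e' he' => ?_, fun i hi => ?_⟩
    · rw [← h i hi.le, ← h j le_rfl]; exact h1 i hi
    · rw [← hp j le_rfl, ← hp i1 hi1, ← hp i2 hi2, ← hp i3 hi3, ← h j le_rfl]
      exact h2 i1 hi1 i2 hi2 i3 hi3 e he e' he'
    · rw [← hp j le_rfl, ← hp i hi, ← h j le_rfl]
      exact h3 i hi e he e' he'
    · rw [← hp j le_rfl, ← hp i hi, ← h j le_rfl]
      exact h4 i hi) (by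
    intro n j
    have hp : ∀ m, ∀ i ≤ j, pre S.g0 α (Function.update n j m) i = pre S.g0 α n i :=
      fun m i hi => pre_congr _ _ i (fun t ht => Function.update_of_ne (by omega) _ _)
    set q := pre S.g0 α n j * S.g0 with hq
    have hinj2 : ∀ x : G, Function.Injective (fun m : ℕ => x * (q * α ^ m)) := by
      intro x m m' h
      exact hinj (mul_left_cancel (mul_left_cancel h))
    have e1 : ∀ᶠ m in cofinite, ∀ i < j, n i < m := by
      rw [Nat.cofinite_eq_atTop]
      have : ∀ᶠ m in atTop, ∀ i ∈ Finset.range j, n i < m :=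
        (eventually_all_finset _).2 fun i _ => eventually_gt_atTop _
      exact this.mono fun m hm i hi => hm i (Finset.mem_range.2 hi)
    have e2 : ∀ᶠ m in cofinite, ∀ i1 ∈ Finset.range (j + 1), ∀ i2 ∈ Finset.range (j + 1),
        ∀ i3 ∈ Finset.range (j + 1), ∀ e ∈ E, ∀ e' ∈ E,
        q * α ^ m ≠ pre S.g0 α n i1 * e * (pre S.g0 α n i2)⁻¹ * pre S.g0 α n i3 * e' := by
      simp only [eventually_all_finset]
      intro i1 _ i2 _ i3 _ e _ e' _
      have := (hinj2 1).tendsto_cofinite.eventually (eventually_cofinite_ne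
        (pre S.g0 α n i1 * e * (pre S.g0 α n i2)⁻¹ * pre S.g0 α n i3 * e'))
      simpa using this
    have e3 : ∀ᶠ m in cofinite, ∀ i ∈ Finset.range (j + 1), ∀ e ∈ E, ∀ e' ∈ E,
        (q * α ^ m) * e * (q * α ^ m)⁻¹ = pre S.g0 α n i * e' * (pre S.g0 α n i)⁻¹ → e ∈ S.C := by
      simp only [eventually_all_finset]
      intro i _ e _ e' _
      by_cases heC : e ∈ S.C
      · exact Eventually.of_forall fun m _ => heC
      · have hinj3 : Function.Injective (fun m : ℕ => (q * α ^ m) * e * (q * α ^ m)⁻¹) := by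
          have key : ∀ m d : ℕ, (q * α ^ m) * e * (q * α ^ m)⁻¹ =
              (q * α ^ (m + d)) * e * (q * α ^ (m + d))⁻¹ → d = 0 := by
            intro m d h
            by_contra hd
            apply heC
            refine ⟨k * d, Nat.mul_pos hk (Nat.pos_of_ne_zero hd), ?_⟩
            rw [pow_mul, ← hα]
            have h2 : e = α ^ d * e * (α ^ d)⁻¹ := by
              have h3 : (q * α ^ (m + d)) * e * (q * α ^ (m + d))⁻¹ =
                (q * α ^ m) * (α ^ d * e * (α ^ d)⁻¹) * (q * α ^ m)⁻¹ := by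
                  rw [pow_add]; group
              rw [h3] at h
              exact mul_left_cancel (mul_right_cancel h)
            change e * α ^ d = α ^ d * e
            nth_rewrite 1 [h2]
            group
          intro m m' h
          rcases le_total m m' with hm | hm
          · obtain ⟨d, rfl⟩ := Nat.exists_eq_add_of_le hm
            have := key m d h; omega
          · obtain ⟨d, rfl⟩ := Nat.exists_eq_add_of_le hm
            have := key m' d h.symm; omega
        have := hinj3.tendsto_cofinite.eventually (eventually_cofinite_ne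
          (pre S.g0 α n i * e' * (pre S.g0 α n i)⁻¹))
        exact this.mono fun m hm h => absurd h hm
    have e4 : ∀ᶠ m in cofinite, ∀ i ∈ Finset.range (j + 1),
        |⟪S.π (pre S.g0 α n i) η, S.π (q * α ^ m) η⟫| ≤ δ / ((j + 1 : ℕ) : ℝ) := by
      simp only [eventually_all_finset]
      intro i _
      have h1 : ∀ᶠ g in cofinite, |⟪η, S.π g η⟫| ≤ δ / ((j + 1 : ℕ) : ℝ) := by
        rw [eventually_cofinite]
        simpa only [not_le] using S.mix η _ (by positivity)
      have := (hinj2 (pre S.g0 α n i)⁻¹).tendsto_cofinite.eventually h1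
      exact this.mono fun m hm => by rw [S.inner_act]; exact hm
    obtain ⟨m, h1, h2, h3, h4⟩ := (e1.and (e2.and (e3.and e4))).exists
    refine ⟨m, fun i hi => ?_, fun i1 hi1 i2 hi2 i3 hi3 e he e' he' => ?_,
      fun i hi e he e' he' => ?_, fun i hi => ?_⟩
    · rw [Function.update_of_ne (by omega), Function.update_self]; exact h1 i hi
    · rw [hp m j le_rfl, hp m i1 hi1, hp m i2 hi2, hp m i3 hi3, Function.update_self]
      exact h2 i1 (by simpa using Nat.lt_succ_of_le hi1) i2 (by simpa using Nat.lt_succ_of_le hi2)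
        i3 (by simpa using Nat.lt_succ_of_le hi3) e he e' he'
    · rw [hp m j le_rfl, hp m i hi, Function.update_self]
      exact h3 i (by simpa using Nat.lt_succ_of_le hi) e he e' he'
    · rw [hp m j le_rfl, hp m i hi, Function.update_self]
      exact h4 i (by simpa using Nat.lt_succ_of_le hi))
  refine ⟨n, fun i j hij => (hn j).1 i hij, ?_, ?_, ?_⟩
  · rintro (_ | j) i1 hi1 i2 hi2 i3 hi3 e he e' he'
    · omega
    · exact (hn j).2.1 i1 (by omega) i2 (by omega) i3 (by omega) e he e' he'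
  · rintro (_ | j) i hi e he e' he'
    · omega
    · exact (hn j).2.2.1 i (by omega) e he e' he'
  · rintro (_ | j) i hi
    · omega
    · exact (hn j).2.2.2 i (by omega)

end Setup

end Pool.Agent.Work.MP_01d39a_al.B1
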