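import Pool.Agent.Work.MP_01d39a_al.B1.Mult

open scoped RealInnerProductSpace BigOperators
open Filter

namespace Pool.Agent.Work.MP_01d39a_al.B1

theorem pigeon (f : ℕ → ℝ) (J : ℕ) (hJ : 0 < J) (n : ℝ) (h0 : 0 ≤ f 0) (hn : f J ≤ n) :
    ∃ j < J, f (j + 1) - f j ≤ n / J := by
  have h1 : ∑ j ∈ Finset.range J, (f (j + 1) - f j) ≤ ∑ j ∈ Finset.range J, n / J := by
    rw [Finset.sum_range_sub]
    have : (J : ℝ) ≠ 0 := by positivity
    simp only [Finset.sum_const, Finset.card_range, nsmul_eq_mul]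
    field_simp
    linarith
  obtain ⟨j, hj, h⟩ := Finset.exists_le_of_sum_le (Finset.nonempty_range_iff.2 hJ.ne') h1
  exact ⟨j, Finset.mem_range.1 hj, h⟩

namespace Setup

variable {G H : Type*} [Group G] [NormedAddCommGroup H] [InnerProductSpace ℝ H] (S : Setup G H)

open Classical in
theorem heavy_small (ε : ℝ) (hε : 0 < ε) : ∃ (E2 : Finset G) (D L0 : ℕ), 0 < D ∧
    ∀ p : ℕ → G, S.Walk p → (∀ i j, i ≠ j → (p i)⁻¹ * p j ∉ E2) → ∀ L, L0 ≤ L → ∀ A : Finset G,
      (((A ×ˢ Finset.range (D * L)).filter fun ω : G × ℕ =>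
        ε * (D * L : ℕ) < (mu p A (D * L) (ω.1 * p ω.2) : ℝ)).card : ℝ) ≤
        ε * (A.card * (D * L : ℕ)) := by
  obtain ⟨C1, hC0, hC1⟩ := S.sparse
  obtain ⟨D, hD⟩ := exists_nat_gt (10 / ε)
  have hDr : (0 : ℝ) < D := lt_trans (by positivity) hD
  have hD0 : 0 < D := by exact_mod_cast hDr
  obtain ⟨v, hv, hfin⟩ := S.fs (S.c S.g0) (1 / (4 * D)) (by positivity)
  set E2 := hfin.toFinset with hE2
  have hE : ∀ g ∉ E2, ⟪v, S.π g v⟫ = 0 := by
    intro g hg
    by_contra h
    exact hg (by simpa [hE2] using h)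
  set R : ℝ := 160 * D ^ 4 * E2.card / ε + 1 with hR
  have hR1 : 1 ≤ R := by
    have : 0 ≤ 160 * (D : ℝ) ^ 4 * E2.card / ε := by positivity
    linarith
  have hR0 : 0 < R := by linarith
  obtain ⟨J, hJ⟩ := exists_nat_gt (5 * D / ε)
  have hJr : (0 : ℝ) < J := lt_trans (by positivity) hJ
  have hJ0 : 0 < J := by exact_mod_cast hJr
  set T : ℝ := 20 * C1 * R ^ J / ε ^ 2 + 1 with hT
  have hT0 : 0 < T := by positivity
  obtain ⟨L0, hL0⟩ := exists_nat_gt (10 * T * R ^ J / ε ^ 2)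
  refine ⟨E2, D, L0, hD0, fun p hp hsep L hL A => ?_⟩
  set Ω := A ×ˢ Finset.range (D * L) with hΩ
  set μ := mu p A (D * L) with hμ
  set l : ℝ := ((D * L : ℕ) : ℝ) with hl
  set n : ℝ := A.card * l with hn
  have hlL : (L : ℝ) ≤ l := by
    rw [hl]; exact_mod_cast Nat.le_mul_of_pos_left L hD0
  have hl1 : 10 * T * R ^ J / ε ^ 2 < l := hL0.trans_le ((by exact_mod_cast hL : (L0 : ℝ) ≤ L).trans hlL)
  have hl0 : 0 < l := lt_trans (by positivity) hl1
  have hn0 : 0 ≤ n := by positivity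
  have hΩn : (Ω.card : ℝ) = n := by simp [hΩ, hn, hl]
  set M : ℕ → ℝ := fun j => ε * l / R ^ j with hM
  set Hv : ℕ → ℝ := fun j => ((Ω.filter fun ω : G × ℕ => M j < (μ (ω.1 * p ω.2) : ℝ)).card : ℝ)
    with hHv
  have hMpos : ∀ j, 0 < M j := fun j => by positivity
  have hMs : ∀ j, M (j + 1) = M j / R := fun j => by simp only [hM, pow_succ]; field_simp
  have hManti : ∀ i j, i ≤ j → M j ≤ M i := fun i j hij => by
    simp only [hM]
    exact div_le_div_of_nonneg_left (by positivity) (by positivity) (pow_le_pow_right₀ hR1 hij)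
  obtain ⟨j, hj, hpig⟩ := pigeon Hv J hJ0 n (by positivity) (by
    rw [← hΩn]; exact Nat.cast_le.2 (Finset.card_filter_le _ _))
  have hH0 : Hv 0 ≤ Hv j := by
    simp only [hHv]
    exact_mod_cast Finset.card_le_card fun ω hω => Finset.mem_filter.2
      ⟨(Finset.mem_filter.1 hω).1, (hManti 0 j (Nat.zero_le _)).trans_lt (Finset.mem_filter.1 hω).2⟩
  have hgoal : Hv 0 ≤ ε * n := by
    set Z := (Ω.image fun ω : G × ℕ => ω.1 * p ω.2).filter fun z => M j < (μ z : ℝ) with hZ
    have hZc : (Z.card : ℝ) * M j ≤ n := by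
      rw [← hΩn]
      exact heavy_card Ω (fun ω : G × ℕ => ω.1 * p ω.2) (M j)
    have hZm : ∀ z, M j < (μ z : ℝ) → z ∈ Z := by
      intro z hz
      refine Finset.mem_filter.2 ⟨?_, hz⟩
      have : 0 < μ z := by exact_mod_cast (hMpos j).trans hz
      obtain ⟨ω, hω⟩ := Finset.card_pos.1 this
      exact Finset.mem_image.2 ⟨ω, (Finset.mem_filter.1 hω).1, (Finset.mem_filter.1 hω).2⟩
    have hw := window A hD0 L (fun y i => M j < (μ (y * p i) : ℝ))
      (fun y i => (μ (y * p i) : ℝ) ≤ M (j + 1))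
    have hgood := hp.good_card hD0 hv hE hsep A L (M (j + 1)) (M j) (hMpos _).le
    have htri := hp.tri_card hC0 hC1 A Z (D * L) T hT0
    set gd : ℝ := (((A ×ˢ Finset.range L).filter (GoodW (fun y i => M j < (μ (y * p i) : ℝ))
      (fun y i => (μ (y * p i) : ℝ) ≤ M (j + 1)) D)).card : ℝ) with hgd
    set md : ℝ := ((Ω.filter fun ω : G × ℕ => ¬ M j < (μ (ω.1 * p ω.2) : ℝ) ∧
      ¬ (μ (ω.1 * p ω.2) : ℝ) ≤ M (j + 1)).card : ℝ) with hmd
    set tr : ℝ := ((Ω.filter fun ω : G × ℕ => M j < (μ (ω.1 * p ω.2) : ℝ) ∧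
      M j < (μ (ω.1 * p (ω.2 + 1)) : ℝ) ∧ M j < (μ (ω.1 * p (ω.2 + 2)) : ℝ)).card : ℝ) with htr
    have hw' : Hv j ≤ D * gd + D * md + 2 * (A.card * L) + tr := by
      simp only [hHv, hgd, hmd, htr]
      have := (Nat.cast_le (α := ℝ)).2 hw
      push_cast at this
      convert this
    have htr' : tr ≤ (T + 2 * C1 * l / T) * Z.card := by
      refine le_trans ?_ htri
      refine Nat.cast_le.2 (Finset.card_le_card fun ω hω => ?_)
      have h := Finset.mem_filter.1 hω
      exact Finset.mem_filter.2 ⟨h.1, hZm _ h.2.1, hZm _ h.2.2.1, hZm _ h.2.2.2⟩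
    have hmd' : md ≤ n / J := by
      refine le_trans ?_ hpig
      rw [le_sub_iff_add_le]
      simp only [hmd, hHv]
      norm_cast
      rw [← Finset.card_union_of_disjoint]
      · refine Finset.card_le_card fun ω hω => ?_
        rcases Finset.mem_union.1 hω with h | h
        · exact Finset.mem_filter.2 ⟨(Finset.mem_filter.1 h).1,
            not_le.1 (Finset.mem_filter.1 h).2.2⟩
        · exact Finset.mem_filter.2 ⟨(Finset.mem_filter.1 h).1,
            (hManti j (j + 1) (by omega)).trans_lt (Finset.mem_filter.1 h).2⟩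
      · rw [Finset.disjoint_left]
        intro ω h1 h2
        exact (Finset.mem_filter.1 h1).2.1 (Finset.mem_filter.1 h2).2
    have b1 : D * gd ≤ ε * n / 5 := by
      have h1 : gd ≤ 32 * D ^ 3 * E2.card * (n / R) := by
        refine hgood.trans ?_
        rw [hMs]
        calc 4 * (2 * (D : ℝ)) ^ 2 * (D * E2.card * (M j / R)) * (2 * Z.card)
            = 32 * D ^ 3 * E2.card * ((Z.card * M j) / R) := by ring
          _ ≤ _ := by gcongr
      have h2 : 160 * (D : ℝ) ^ 4 * E2.card ≤ ε * R := by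
        rw [hR, mul_add, mul_div_cancel₀ _ hε.ne']; linarith
      calc D * gd ≤ D * (32 * D ^ 3 * E2.card * (n / R)) := by gcongr
        _ = (160 * (D : ℝ) ^ 4 * E2.card) * n / (5 * R) := by field_simp; ring
        _ ≤ (ε * R) * n / (5 * R) := by gcongr
        _ = ε * n / 5 := by field_simp
    have b2 : D * md ≤ ε * n / 5 := by
      have h2 : 5 * (D : ℝ) ≤ ε * J := by
        rw [div_lt_iff₀ hε] at hJ; linarith
      calc D * md ≤ D * (n / J) := by gcongr
        _ = (5 * D) * n / (5 * J) := by field_simp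
        _ ≤ (ε * J) * n / (5 * J) := by gcongr
        _ = ε * n / 5 := by field_simp
    have b3 : 2 * ((A.card : ℝ) * L) ≤ ε * n / 5 := by
      have h2 : (10 : ℝ) ≤ ε * D := by
        rw [div_lt_iff₀ hε] at hD; linarith
      have h3 : n = D * (A.card * L) := by rw [hn, hl]; push_cast; ring
      rw [h3]
      have h4 : (0 : ℝ) ≤ A.card * L := by positivity
      nlinarith
    have hZ2 : (Z.card : ℝ) ≤ n * R ^ J / (ε * l) := by
      have h1 : (Z.card : ℝ) * M J ≤ n :=
        (mul_le_mul_of_nonneg_left (hManti j J hj.le) (Nat.cast_nonneg _)).trans hZc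
      rw [le_div_iff₀ (by positivity)]
      simp only [hM] at h1
      rw [← mul_div_assoc, div_le_iff₀ (by positivity)] at h1
      exact h1
    have b4 : T * Z.card ≤ ε * n / 10 := by
      have h2 : 10 * T * R ^ J ≤ ε ^ 2 * l := by
        rw [div_lt_iff₀ (by positivity)] at hl1; linarith
      calc T * Z.card ≤ T * (n * R ^ J / (ε * l)) := by gcongr
        _ = (10 * T * R ^ J) * n / (10 * ε * l) := by field_simp
        _ ≤ (ε ^ 2 * l) * n / (10 * ε * l) := by gcongr
        _ = ε * n / 10 := by field_simp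
    have b5 : 2 * C1 * l / T * Z.card ≤ ε * n / 10 := by
      have h2 : 20 * C1 * R ^ J ≤ ε ^ 2 * T := by
        rw [hT, mul_add, mul_div_cancel₀ _ (by positivity)]; nlinarith [sq_nonneg ε]
      calc 2 * C1 * l / T * Z.card ≤ 2 * C1 * l / T * (n * R ^ J / (ε * l)) := by gcongr
        _ = (20 * C1 * R ^ J) * n / (10 * ε * T) := by field_simp; ring
        _ ≤ (ε ^ 2 * T) * n / (10 * ε * T) := by gcongr
        _ = ε * n / 10 := by field_simp
    have : 0 ≤ ε * n := by positivity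
    rw [add_mul] at htr'
    linarith
  simpa [hHv, hM] using hgoal

open Classical in
theorem mult_small (ε : ℝ) (hε : 0 < ε) : ∃ (E2 : Finset G) (D L0 : ℕ), 0 < D ∧
    ∀ p : ℕ → G, S.Walk p → (∀ i j, i ≠ j → (p i)⁻¹ * p j ∉ E2) → ∀ L, L0 ≤ L → ∀ A : Finset G,
      ∑ ω ∈ A ×ˢ Finset.range (D * L), (mu p A (D * L) (ω.1 * p ω.2) : ℝ) ≤
        2 * ε * (A.card * ((D * L : ℕ) : ℝ) ^ 2) := by
  obtain ⟨E2, D, L0, hD, h⟩ := S.heavy_small ε hε
  refine ⟨E2, D, L0, hD, fun p hp hsep L hL A => ?_⟩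
  have h1 := h p hp hsep L hL A
  set l : ℝ := ((D * L : ℕ) : ℝ) with hl
  have hl0 : 0 ≤ l := by positivity
  calc ∑ ω ∈ A ×ˢ Finset.range (D * L), (mu p A (D * L) (ω.1 * p ω.2) : ℝ)
      ≤ ∑ ω ∈ A ×ˢ Finset.range (D * L), (ε * l +
          if ε * l < (mu p A (D * L) (ω.1 * p ω.2) : ℝ) then l else 0) := by
        refine Finset.sum_le_sum fun ω _ => ?_
        split_ifs with h
        · have : (mu p A (D * L) (ω.1 * p ω.2) : ℝ) ≤ l := by
            exact Nat.cast_le.2 (mu_le p A (D * L) _)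
          have : 0 ≤ ε * l := by positivity
          linarith
        · linarith [not_lt.1 h]
    _ = A.card * l * (ε * l) + (((A ×ˢ Finset.range (D * L)).filter fun ω : G × ℕ =>
        ε * l < (mu p A (D * L) (ω.1 * p ω.2) : ℝ)).card : ℝ) * l := by
        rw [Finset.sum_add_distrib, ← Finset.sum_filter]
        simp [hl]
    _ ≤ A.card * l * (ε * l) + ε * (A.card * l) * l := by gcongr
    _ = _ := by ring

end Setup

end Pool.Agent.Work.MP_01d39a_al.B1
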