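import Pool.Agent.Work.MP_01d39a_al.B1.Setup
import Pool.Agent.Work.MP_01d39a_al.B1.Rank

open scoped RealInnerProductSpace BigOperators
open Filter

namespace Pool.Agent.Work.MP_01d39a_al.B1

theorem heavy_card {α β : Type*} [DecidableEq β] (s : Finset α) (f : α → β) (T : ℝ) :
    (((s.image f).filter fun v => T < ((s.filter fun x => f x = v).card : ℝ)).card : ℝ) * T
      ≤ s.card := by
  have h1 := Finset.card_eq_sum_card_image f s
  calc (((s.image f).filter fun v => T < ((s.filter fun x => f x = v).card : ℝ)).card : ℝ) * T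
      = ∑ v ∈ (s.image f).filter fun v => T < ((s.filter fun x => f x = v).card : ℝ), T := by
        simp
    _ ≤ ∑ v ∈ (s.image f).filter fun v => T < ((s.filter fun x => f x = v).card : ℝ),
          ((s.filter fun x => f x = v).card : ℝ) :=
        Finset.sum_le_sum fun v hv => (Finset.mem_filter.1 hv).2.le
    _ ≤ ∑ v ∈ s.image f, ((s.filter fun x => f x = v).card : ℝ) :=
        Finset.sum_le_sum_of_subset_of_nonneg (Finset.filter_subset _ _) fun _ _ _ => by positivity
    _ = s.card := by rw [h1]; push_cast; rfl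

namespace Setup

variable {G H : Type*} [Group G] [NormedAddCommGroup H] [InnerProductSpace ℝ H] (S : Setup G H)

theorem edge_eq (z : G) : S.π z (S.c S.g0) = S.c (z * S.g0) - S.c z := by
  rw [S.coc]; abel

theorem approx_norm {v : H} {ε : ℝ} (hv : ‖S.c S.g0 - v‖ ≤ ε) : 1 - ε ≤ ‖v‖ ∧ ‖v‖ ≤ 1 + ε := by
  have h1 := abs_norm_sub_norm_le (S.c S.g0) v
  rw [S.hξ, abs_le] at h1
  constructor <;> linarith [h1.1, h1.2]

/-- Finite sets of edges span many vertices. -/
theorem sparse : ∃ C1 : ℝ, 0 ≤ C1 ∧ ∀ (Z : Finset G) (V : Finset H),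
    (∀ z ∈ Z, S.c z ∈ V ∧ S.c (z * S.g0) ∈ V) → (Z.card : ℝ) ≤ C1 * V.card := by
  classical
  obtain ⟨v, hv, hfin⟩ := S.fs (S.c S.g0) (1 / 4) (by norm_num)
  obtain ⟨h1, h2⟩ := S.approx_norm hv
  refine ⟨4 * 2 ^ 2 * hfin.toFinset.card, by positivity, fun Z V hZ => ?_⟩
  refine rank_crude Z V (fun z => S.π z (S.c S.g0)) (fun z => S.π z v) (fun z hz => ?_) 2 _
    (by positivity) (fun z hz => ?_) (fun z hz => ?_) (fun z hz => ?_)
  · rw [S.edge_eq]
    exact Submodule.sub_mem _ (Submodule.subset_span (hZ z hz).2)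
      (Submodule.subset_span (hZ z hz).1)
  · rw [← map_sub, LinearIsometryEquiv.norm_map, LinearIsometryEquiv.norm_map, norm_sub_rev]
    nlinarith [norm_nonneg (S.c S.g0 - v)]
  · rw [LinearIsometryEquiv.norm_map]; nlinarith [norm_nonneg v]
  · refine ⟨hfin.toFinset.image (fun e => z * e), by exact_mod_cast Finset.card_image_le,
      fun j _ hj => ?_⟩
    rw [S.inner_act]
    by_contra h
    exact hj (Finset.mem_image.2 ⟨z⁻¹ * j, by simpa using h, by group⟩)

/-- A walk with steps `g0 * (element of K)`, all steps distinct. -/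
structure Walk (p : ℕ → G) : Prop where
  step : ∀ i, ∃ x ∈ S.K, p (i + 1) = p i * S.g0 * x
  inj : ∀ i j, (p i)⁻¹ * p (i + 1) = (p j)⁻¹ * p (j + 1) → i = j

variable {S}

theorem Walk.c_succ {p : ℕ → G} (hp : S.Walk p) (y : G) (i : ℕ) :
    S.c (y * p (i + 1)) = S.c (y * p i * S.g0) := by
  obtain ⟨x, hx, h⟩ := hp.step i
  rw [h, ← mul_assoc, ← mul_assoc, S.c_mul_K _ hx]

theorem Walk.tele {p : ℕ → G} (hp : S.Walk p) (y : G) {i j : ℕ} (hij : i ≤ j) :
    ∑ t ∈ Finset.Ico i j, S.π (y * p t) (S.c S.g0) = S.c (y * p j) - S.c (y * p i) := by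
  induction j, hij using Nat.le_induction with
  | base => simp
  | succ j hij ih => rw [Finset.sum_Ico_succ_top hij, ih, S.edge_eq, hp.c_succ]; abel

theorem Generic.walk {k : ℕ} (hk : 0 < k) {E : Finset G} {η : H} {δ : ℝ} {n : ℕ → ℕ}
    (hg : S.Generic k E η δ n) : S.Walk (pre S.g0 (S.a ^ k) n) := by
  refine ⟨fun i => ⟨(S.a ^ k) ^ n i, S.K.pow_mem (S.K.pow_mem S.a_mem_K k) _, rfl⟩,
    fun i j h => ?_⟩
  simp only [pre, mul_assoc, inv_mul_cancel_left] at h
  have h2 := injective_pow_iff_not_isOfFinOrder.2 (S.not_fin_pow hk) (mul_left_cancel h)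
  rcases lt_trichotomy i j with h3 | h3 | h3
  · have := hg.mono i j h3; omega
  · exact h3
  · have := hg.mono j i h3; omega

open Classical in
theorem Walk.tri_card {p : ℕ → G} (hp : S.Walk p) {C1 : ℝ} (hC0 : 0 ≤ C1)
    (hC1 : ∀ (Z : Finset G) (V : Finset H),
      (∀ z ∈ Z, S.c z ∈ V ∧ S.c (z * S.g0) ∈ V) → (Z.card : ℝ) ≤ C1 * V.card)
    (A Z : Finset G) (l : ℕ) (T : ℝ) (hT : 0 < T) :
    (((A ×ˢ Finset.range l).filter fun ω : G × ℕ =>
      ω.1 * p ω.2 ∈ Z ∧ ω.1 * p (ω.2 + 1) ∈ Z ∧ ω.1 * p (ω.2 + 2) ∈ Z).card : ℝ) ≤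
      (T + 2 * C1 * l / T) * Z.card := by
  set Tri := (A ×ˢ Finset.range l).filter fun ω : G × ℕ =>
      ω.1 * p ω.2 ∈ Z ∧ ω.1 * p (ω.2 + 1) ∈ Z ∧ ω.1 * p (ω.2 + 2) ∈ Z with hTri
  set din : H → ℕ := fun v => (Z.filter fun x => S.c (x * S.g0) = v).card with hdin
  set dout : H → ℕ := fun v => (Z.filter fun x => S.c x = v).card with hdout
  set fib : G → ℕ := fun z => (Tri.filter fun ω => ω.1 * p (ω.2 + 1) = z).card with hfib
  have hsum : Tri.card = ∑ z ∈ Z, fib z :=
    Finset.card_eq_sum_card_fiberwise (f := fun ω : G × ℕ => ω.1 * p (ω.2 + 1))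
      fun ω hω => (Finset.mem_filter.1 hω).2.2.1
  have f1 : ∀ z, fib z ≤ l := by
    intro z
    calc fib z ≤ (Finset.range l).card := by
          refine Finset.card_le_card_of_injOn Prod.snd (fun ω hω => ?_) (fun ω hω ω' hω' h => ?_)
          · simp only [hTri, Finset.coe_filter, Finset.mem_filter, Finset.mem_product,
              Set.mem_ofPred_eq] at hω
            exact Finset.mem_coe.2 hω.1.1.2
          · simp only [Finset.coe_filter, Set.mem_ofPred_eq] at hω hω'
            refine Prod.ext ?_ h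
            have := hω.2.trans hω'.2.symm
            rw [h] at this
            exact mul_right_cancel this
      _ = l := Finset.card_range l
  have f2 : ∀ z, fib z ≤ din (S.c z) := by
    intro z
    refine Finset.card_le_card_of_injOn (fun ω => ω.1 * p ω.2) (fun ω hω => ?_)
      (fun ω hω ω' hω' h => ?_)
    · simp only [hTri, Finset.coe_filter, Finset.mem_filter, Set.mem_ofPred_eq] at hω ⊢
      exact ⟨hω.1.2.1, by rw [← hp.c_succ, hω.2]⟩
    · simp only [Finset.coe_filter, Set.mem_ofPred_eq] at hω hω' h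
      have h1 := hω.2.trans hω'.2.symm
      have h2 : ω.2 = ω'.2 := by
        apply hp.inj
        calc (p ω.2)⁻¹ * p (ω.2 + 1) = (ω.1 * p ω.2)⁻¹ * (ω.1 * p (ω.2 + 1)) := by group
          _ = (ω'.1 * p ω'.2)⁻¹ * (ω'.1 * p (ω'.2 + 1)) := by rw [h, h1]
          _ = _ := by group
      refine Prod.ext ?_ h2
      rw [h2] at h
      exact mul_right_cancel h
  have f3 : ∀ z, fib z ≤ dout (S.c (z * S.g0)) := by
    intro z
    refine Finset.card_le_card_of_injOn (fun ω => ω.1 * p (ω.2 + 2)) (fun ω hω => ?_)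
      (fun ω hω ω' hω' h => ?_)
    · simp only [hTri, Finset.coe_filter, Finset.mem_filter, Set.mem_ofPred_eq] at hω ⊢
      exact ⟨hω.1.2.2.2, by rw [← hω.2, ← hp.c_succ]⟩
    · simp only [Finset.coe_filter, Set.mem_ofPred_eq] at hω hω' h
      have h1 := hω.2.trans hω'.2.symm
      have h2 : ω.2 + 1 = ω'.2 + 1 := by
        apply hp.inj
        calc (p (ω.2 + 1))⁻¹ * p (ω.2 + 1 + 1)
            = (ω.1 * p (ω.2 + 1))⁻¹ * (ω.1 * p (ω.2 + 2)) := by group
          _ = (ω'.1 * p (ω'.2 + 1))⁻¹ * (ω'.1 * p (ω'.2 + 2)) := by rw [h, h1]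
          _ = _ := by group
      have h3 : ω.2 = ω'.2 := by omega
      refine Prod.ext ?_ h3
      rw [h3] at h
      exact mul_right_cancel h
  set V1 := (Z.image fun x => S.c (x * S.g0)).filter fun v => T < (din v : ℝ) with hV1
  set V2 := (Z.image fun x => S.c x).filter fun v => T < (dout v : ℝ) with hV2
  have hv1 : (V1.card : ℝ) * T ≤ Z.card := heavy_card Z (fun x => S.c (x * S.g0)) T
  have hv2 : (V2.card : ℝ) * T ≤ Z.card := heavy_card Z (fun x => S.c x) T
  set Zb := Z.filter fun z => T < (fib z : ℝ) with hZb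
  have hZb1 : (Zb.card : ℝ) ≤ C1 * (V1 ∪ V2).card := by
    refine hC1 Zb _ fun z hz => ?_
    have hz2 := (Finset.mem_filter.1 hz).2
    constructor
    · refine Finset.mem_union_left _ (Finset.mem_filter.2 ⟨?_, ?_⟩)
      · have : 0 < din (S.c z) := by
          have : (0 : ℝ) < din (S.c z) := (hT.trans hz2).trans_le (by exact_mod_cast f2 z)
          exact_mod_cast this
        obtain ⟨x, hx⟩ := Finset.card_pos.1 this
        exact Finset.mem_image.2 ⟨x, (Finset.mem_filter.1 hx).1, (Finset.mem_filter.1 hx).2⟩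
      · exact hz2.trans_le (by exact_mod_cast f2 z)
    · refine Finset.mem_union_right _ (Finset.mem_filter.2 ⟨?_, ?_⟩)
      · have : 0 < dout (S.c (z * S.g0)) := by
          have : (0 : ℝ) < dout (S.c (z * S.g0)) :=
            (hT.trans hz2).trans_le (by exact_mod_cast f3 z)
          exact_mod_cast this
        obtain ⟨x, hx⟩ := Finset.card_pos.1 this
        exact Finset.mem_image.2 ⟨x, (Finset.mem_filter.1 hx).1, (Finset.mem_filter.1 hx).2⟩
      · exact hz2.trans_le (by exact_mod_cast f3 z)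
  have hU : ((V1 ∪ V2).card : ℝ) ≤ 2 * Z.card / T := by
    rw [le_div_iff₀ hT]
    have : ((V1 ∪ V2).card : ℝ) ≤ V1.card + V2.card := by exact_mod_cast Finset.card_union_le _ _
    nlinarith
  have hsplit : (Tri.card : ℝ) ≤ T * Z.card + l * Zb.card := by
    rw [hsum]; push_cast
    calc ∑ z ∈ Z, (fib z : ℝ) ≤ ∑ z ∈ Z, (T + if T < (fib z : ℝ) then (l : ℝ) else 0) := by
          refine Finset.sum_le_sum fun z _ => ?_
          split_ifs with h
          · have : (fib z : ℝ) ≤ l := by exact_mod_cast f1 z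
            linarith
          · linarith [not_lt.1 h]
      _ = _ := by
          rw [Finset.sum_add_distrib, ← Finset.sum_filter]
          simp [hZb, mul_comm]
  have h3 : (Zb.card : ℝ) ≤ C1 * (2 * Z.card / T) :=
    hZb1.trans (mul_le_mul_of_nonneg_left hU hC0)
  calc (Tri.card : ℝ) ≤ T * Z.card + l * (C1 * (2 * Z.card / T)) := by
        refine hsplit.trans ?_
        gcongr
    _ = _ := by field_simp

end Setup

end Pool.Agent.Work.MP_01d39a_al.B1
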